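import Pool.Agent.MP_c8dfda_nt.sl.GG

set_option maxHeartbeats 400000

/-! A slow orbit over a geometric progression satisfies an algebraic relation. -/

namespace Pool.Agent.MP_c8dfda_nt.SL

open NumberField Filter Height Topology Polynomial Pool.Agent.MP_c8dfda_nt.TG
open scoped Polynomial.Bivariate

variable {K : Type*} [Field K] {N d : ℕ} {p : K[X][Y]} {ξ y : ℕ → K} {δ : Fin N → K}

theorem gg [NumberField K] (hd : 2 ≤ d) (pd : p.natDegree = d)
    (rec : ∀ m, y (m + N + 1) = p.evalEval (ξ m) (y (m + N)) + ∑ j, δ j * y (m + j))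
    {a : K} (a0 : a ≠ 0) (a1 : ∀ j, 1 ≤ j → a ^ j ≠ 1) (hξ : ∀ m, ξ m = a ^ m * ξ 0) (ξ0 : ξ 0 ≠ 0)
    (hc : ∀ m, (p.coeff d).eval (ξ m) ≠ 0) {β : ℕ → K}
    (hβ : ∀ m, β m = -(p.coeff (d - 1)).eval (ξ m) / (d * (p.coeff d).eval (ξ m)))
    {S : Finset (FinitePlace K)} (hS : ∀ v ∉ S, ∀ n, v (y n) ≤ 1) (hy : y ∈ GS K) {κ : ℕ} {c : K[X]}
    (hc1 : p.coeff d = X ^ κ * c) (c0 : c.coeff 0 ≠ 0)
    (g0 : ∀ v : AbsoluteValue K ℝ, Pl v → v a < 1 →
      ∃ C, ∀ n, v (y (n + N) - β n) ^ (d - 1) * v (ξ n) ^ κ ≤ C)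
    (g1 : ∀ v : AbsoluteValue K ℝ, Pl v → 1 < v a →
      ∃ C, ∀ n, v (y (n + N) - β n) ^ (d - 1) * v (ξ n) ^ (κ + c.natDegree) ≤ C) :
    ∃ (J : Finset ℕ) (V : Finset K) (Q : K[X]) (i j l : ℕ), ∀ᶠ m : ℕ in atTop, ∃ s ∈ J, ∃ b ∈ V,
      (ξ (m + s) ^ i * y (m + s + N) - Q.eval (ξ (m + s))) ^ (d - 1) * ξ (m + s) ^ j =
        b * ξ (m + s) ^ l := by
  classical
  have ξn : ∀ m, ξ m ≠ 0 := fun m => by rw [hξ]; exact mul_ne_zero (pow_ne_zero _ a0) ξ0
  have d0 : (d : K) ≠ 0 := by exact_mod_cast (by omega : d ≠ 0)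
  obtain ⟨j, e, r, h1, h2⟩ : ∃ j e r, κ = j * (d - 1) + e ∧ d - 1 = e + (r + 1) :=
    ⟨κ / (d - 1), κ % (d - 1), d - 1 - κ % (d - 1) - 1, (Nat.div_add_mod' _ _).symm, by
      have := Nat.mod_lt κ (by omega : 0 < d - 1); omega⟩
  obtain ⟨R, Q, hR, hQ⟩ := pfrac c0 κ (-(X ^ j * p.coeff (d - 1) * C (d : K)⁻¹))
  obtain ⟨S', hS'⟩ := int_off hξ Q κ
  let g : ℕ → K := fun m => (ξ m ^ j * y (m + N) - Q.eval (ξ m) / ξ m ^ κ) ^ (d - 1) * ξ m ^ e
  have gen : ∀ (v : AbsoluteValue K ℝ) m, v (g m) ≤ 2 ^ (d - 1 - 1) *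
      (v (y (m + N) - β m) ^ (d - 1) * v (ξ m) ^ κ +
        v (R.eval (ξ m) / c.eval (ξ m)) ^ (d - 1) * v (ξ m) ^ e) := fun v m => by
    have q : ξ m ^ j * y (m + N) - Q.eval (ξ m) / ξ m ^ κ =
        ξ m ^ j * (y (m + N) - β m) + R.eval (ξ m) / c.eval (ξ m) := by
      have a := congrArg (eval (ξ m)) hQ
      have b := hc m
      rw [hβ]
      simp only [hc1, eval_neg, eval_mul, eval_pow, eval_X, eval_C, eval_add] at a b ⊢
      have b1 := left_ne_zero_of_mul b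
      have b2 := right_ne_zero_of_mul b
      field_simp at a ⊢
      linear_combination a
    simp only [g]
    rw [q, map_mul, map_pow, map_pow]
    refine (mul_le_mul_of_nonneg_right ((pow_le_pow_left₀ (v.nonneg _) (v.add_le _ _) _).trans
      (add_pow_le (v.nonneg _) (v.nonneg _) _)) (by positivity)).trans_eq ?_
    rw [h1, map_mul, map_pow]
    ring
  have b1 : ∀ v : AbsoluteValue K ℝ, Pl v → 1 < v a →
      ∃ C, ∀ᶠ m : ℕ in atTop, v (ξ m)⁻¹ ≤ 1 ∧ v (g m) ≤ C * v (ξ m)⁻¹ ^ min 1 c.natDegree := by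
    intro v hv h
    obtain ⟨A, hA⟩ := g1 v hv h
    obtain ⟨B, hB⟩ := small_inf v hξ ξn h hR
    refine ⟨2 ^ (d - 1 - 1) * (|A| + |B| ^ (d - 1)), hB.mono fun m ⟨t1, t2⟩ =>
      ⟨t1, (gen v m).trans ?_⟩⟩
    have x0 := v.pos (ξn m)
    rw [mul_assoc, add_mul]
    rw [map_inv₀] at t1 t2 ⊢
    refine mul_le_mul_of_nonneg_left (add_le_add ?_ ?_) (by positivity)
    · have := hA m
      rw [pow_add, ← mul_assoc, ← le_div_iff₀ (by positivity), div_eq_mul_inv, ← inv_pow] at this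
      exact this.trans (mul_le_mul (le_abs_self _) (pow_le_pow_of_le_one (by positivity) t1
        (min_le_right _ _)) (by positivity) (abs_nonneg _))
    · refine (mul_le_mul_of_nonneg_right (pow_le_pow_left₀ (v.nonneg _) (t2.trans
        (mul_le_mul_of_nonneg_right (le_abs_self _) (by positivity))) _) (by positivity)).trans ?_
      rw [mul_pow, mul_assoc]
      refine mul_le_mul_of_nonneg_left (le_of_eq_of_le ?_ (pow_le_pow_of_le_one (n := r + 1)
        (by positivity) t1 ((min_le_left _ _).trans (by omega)))) (by positivity)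
      rw [h2, pow_add, mul_right_comm, ← mul_pow, inv_mul_cancel₀ x0.ne', one_pow, one_mul]
  obtain ⟨J, V, h⟩ := blocks hd pd rec a0 a1 hξ ξ0 hy hc1 c0 (g := g) (S := S ∪ S')
    (fun v hv m => by
      rw [Finset.mem_union, not_or] at hv
      have t := hS' v hv.2 m
      simp only [g, map_mul, map_pow]
      refine mul_le_one₀ (pow_le_one₀ (apply_nonneg _ _) (fin_sub v ?_ t.2)) (by positivity)
        (pow_le_one₀ (apply_nonneg _ _) t.1)
      rw [map_mul, map_pow]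
      exact mul_le_one₀ (pow_le_one₀ (apply_nonneg _ _) t.1) (apply_nonneg _ _) (hS v hv.1 _))
    (fun v hv h => by
      rcases h.lt_or_gt with h | h
      · obtain ⟨A, hA⟩ := g0 v hv h
        obtain ⟨B, B0, hB⟩ := ev_bd v (geo_le v hξ h.le) R
        have := half_pos (v.pos c0)
        refine ⟨2 ^ (d - 1 - 1) * (A + (B / (v (c.coeff 0) / 2)) ^ (d - 1) * v (ξ 0) ^ e),
          (ev_low v hξ h c0).mono fun m hm => (gen v m).trans ?_⟩
        rw [map_div₀]
        gcongr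
        exacts [hA m, hB m, geo_le v hξ h.le m]
      · obtain ⟨A, hA⟩ := b1 v hv h
        exact ⟨|A|, hA.mono fun m hm => hm.2.trans ((mul_le_mul (le_abs_self _)
          (pow_le_one₀ (v.nonneg _) hm.1) (by positivity) (abs_nonneg _)).trans_eq (mul_one _))⟩)
    (fun v hv h => (b1 v hv h).imp fun _ h => h.mono fun _ h => h.2) fun v h => by
      have u : ∀ m, v (ξ m) = v (ξ 0) := fun m => by
        rw [hξ, map_mul, map_pow, h, one_pow, one_mul]
      obtain ⟨B, B0, hB⟩ := ev_bd v (fun m => (u m).le) Q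
      refine ⟨(v (ξ 0) ^ j + B / v (ξ 0) ^ κ) ^ (d - 1) * v (ξ 0) ^ e, by positivity,
        fun m Z Z1 hZ => ?_⟩
      simp only [g]
      rw [map_mul, map_pow, map_pow, u, mul_right_comm, ← mul_pow, add_mul]
      refine mul_le_mul_of_nonneg_right (pow_le_pow_left₀ (v.nonneg _) ((v.sub_le_add _ _).trans
        ?_) _) (by positivity)
      rw [map_mul, map_pow, map_div₀, map_pow, u]
      exact add_le_add (mul_le_mul_of_nonneg_left hZ (by positivity)) ((div_le_div_of_nonneg_right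
        (hB m) (by positivity)).trans (le_mul_of_one_le_right (by positivity) Z1))
  refine ⟨J, V, Q, κ + j, e, κ * (d - 1), h.mono fun m ⟨s, hs, h⟩ => ⟨s, hs, _, h, ?_⟩⟩
  simp only [g]
  rw [mul_right_comm, pow_mul, ← mul_pow, sub_mul, div_mul_cancel₀ _ (pow_ne_zero _ (ξn _))]
  ring

/-- The polynomial does not vanish when the fibre variables have degrees `d ^ j`. -/
def Good (d : ℕ) (ξ : ℕ → K) (Φ : MvPolynomial (ℕ ⊕ ℕ) K) : Prop :=
  ∀ z : ℕ → K[X], (∀ j, (z j).natDegree = d ^ j) →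
    MvPolynomial.aeval (Sum.elim (fun j => C (ξ j)) z) Φ ≠ 0

theorem Good.prod {ι : Type*} {s : Finset ι} {Φ : ι → MvPolynomial (ℕ ⊕ ℕ) K}
    (h : ∀ i ∈ s, Good d ξ (Φ i)) : Good d ξ (∏ i ∈ s, Φ i) := fun z hz => by
  rw [map_prod]
  exact Finset.prod_ne_zero_iff.2 fun i hi => h i hi z hz

theorem indep {J : Type*} [Fintype J] {φ : J → K[X]} (h0 : ∀ e, φ e ≠ 0)
    (h : Function.Injective fun e => (φ e).natDegree) {c : J → K} (hc : ∃ e, c e ≠ 0) :
    ∑ e, C (c e) * φ e ≠ 0 := fun z => by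
  have := degree_sum_eq_of_disjoint (fun e => C (c e) * φ e) Finset.univ fun e he f hf ne q => by
    have a : ∀ e, C (c e) * φ e ≠ 0 → (C (c e) * φ e).natDegree = (φ e).natDegree := fun e he =>
      natDegree_C_mul fun z => he (by simp [z])
    exact ne (h ((a e he.2).symm.trans ((natDegree_eq_of_degree_eq q).trans (a f hf.2))))
  obtain ⟨e, he⟩ := hc
  rw [z, degree_zero, eq_comm, Finset.sup_eq_bot_iff] at this
  exact mul_ne_zero (C_ne_zero.2 he) (h0 e) (degree_eq_bot.1 (this e (Finset.mem_univ e)))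

theorem aeval_C_eq_C_eval (x : K) (P : K[X]) : aeval (C x) P = C (P.eval x) :=
  aeval_algebraMap_apply_eq_algebraMap_eval (A := K[X]) x P

theorem deg_lin {a b : K} (a0 : a ≠ 0) (z : K[X]) : (C a * z + C b).natDegree = z.natDegree := by
  rw [natDegree_add_C, natDegree_C_mul a0]

theorem core [NumberField K] (hd : 2 ≤ d) (pd : p.natDegree = d)
    (rec : ∀ m, y (m + N + 1) = p.evalEval (ξ m) (y (m + N)) + ∑ j, δ j * y (m + j))
    {a : K} (a0 : a ≠ 0) (a1 : ∀ j, 1 ≤ j → a ^ j ≠ 1) (hξ : ∀ m, ξ m = a ^ m * ξ 0) (ξ0 : ξ 0 ≠ 0)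
    (hc : ∀ m, (p.coeff d).eval (ξ m) ≠ 0)
    {S : Finset (FinitePlace K)} (hS : ∀ v ∉ S, ∀ n, v (y n) ≤ 1) (hy : y ∈ GS K) :
    ∃ Φ, Good d ξ Φ ∧ ∀ᶠ n : ℕ in atTop,
      MvPolynomial.aeval (Sum.elim (fun j => ξ (n + j)) fun j => y (n + j + N)) Φ = 0 := by
  classical
  have ξn : ∀ m, ξ m ≠ 0 := fun m => by rw [hξ]; exact mul_ne_zero (pow_ne_zero _ a0) ξ0
  have d0 : (d : K) ≠ 0 := by exact_mod_cast (by omega : d ≠ 0)
  have dp : ∀ j, d ^ j ≠ 0 := fun j => pow_ne_zero _ (by omega)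
  obtain ⟨β, hβ⟩ : ∃ β : ℕ → K, ∀ m, β m =
    -(p.coeff (d - 1)).eval (ξ m) / (d * (p.coeff d).eval (ξ m)) := ⟨_, fun _ => rfl⟩
  obtain ⟨e, he, rel⟩ := centre hd pd hc rec hβ
  have hw : (fun n => y (n + N) - β n) ∈ GS K :=
    sub_mem (gs_shift hy N) (he _ gs_inv fun j => gs_shift (gs_geo hξ) j).1
  have bad : (∃ (k : ℕ) (s : Set ((Fin k → Fin d) → K)), s.Finite ∧ (∀ c ∈ s, ∃ e, c e ≠ 0) ∧
      ∀ᶠ n : ℕ in atTop, ∃ c ∈ s, ∑ e, c e * ∏ j : Fin k,
        (y (n + j + N + N) - β (n + j + N)) ^ (e j : ℕ) = 0) → ∃ Φ, Good d ξ Φ ∧ ∀ᶠ n : ℕ in atTop,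
      MvPolynomial.aeval (Sum.elim (fun j => ξ (n + j)) fun j => y (n + j + N)) Φ = 0 := by
    rintro ⟨k, s, s1, s2, s3⟩
    obtain ⟨P, hP⟩ : ∃ P : K[X], ∀ x, P.eval x = (d : K)⁻¹ * (p.coeff (d - 1)).eval x :=
      ⟨C (d : K)⁻¹ * p.coeff (d - 1), by simp⟩
    refine ⟨∏ c ∈ s1.toFinset, ∑ e : Fin k → Fin d, MvPolynomial.C (c e) * ∏ j : Fin k,
      (aeval (MvPolynomial.X (.inl (j + N))) (p.coeff d) ^ (d - e j) *
        (aeval (MvPolynomial.X (.inl (j + N))) (p.coeff d) * MvPolynomial.X (.inr (j + N)) +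
          aeval (MvPolynomial.X (.inl (j + N))) P) ^ (e j : ℕ)),
      .prod fun c hc' z hz => ?_, s3.mono fun n ⟨c, c1, c2⟩ => ?_⟩
    · simp only [map_sum, map_mul, map_prod, map_pow, map_add, ← aeval_algHom_apply,
        MvPolynomial.aeval_X, MvPolynomial.aeval_C, Sum.elim_inl, Sum.elim_inr, ← C_eq_algebraMap,
        aeval_C_eq_C_eval]
      have l0 : ∀ (j : Fin k) b, C ((p.coeff d).eval (ξ (j + N))) * z (j + N) + C b ≠ 0 :=
        fun j b q => dp _ (by rw [← hz (j + N), ← deg_lin (b := b) (hc (j + N)), q, natDegree_zero])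
      have l1 : ∀ (j : Fin k) i l b, C ((p.coeff d).eval (ξ (j + N))) ^ i *
          (C ((p.coeff d).eval (ξ (j + N))) * z (j + N) + C b) ^ l ≠ 0 := fun j i l b =>
        mul_ne_zero (pow_ne_zero _ (C_ne_zero.2 (hc _))) (pow_ne_zero _ (l0 j b))
      have l2 : ∀ e : Fin k → Fin d, (∏ j : Fin k, (C ((p.coeff d).eval (ξ (j + N))) ^ (d - e j) *
          (C ((p.coeff d).eval (ξ (j + N))) * z (j + N) + C (P.eval (ξ (j + N)))) ^
            (e j : ℕ))).natDegree = finFunctionFinEquiv e * d ^ N := fun e => by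
        rw [natDegree_prod _ _ fun j _ => l1 j _ _ _, finFunctionFinEquiv_apply, Finset.sum_mul]
        refine Finset.sum_congr rfl fun j _ => ?_
        rw [← C_pow, natDegree_C_mul (pow_ne_zero _ (hc _)), natDegree_pow, deg_lin (hc _), hz,
          pow_add, mul_assoc]
      refine indep (fun e => Finset.prod_ne_zero_iff.2 fun j _ => l1 _ _ _ _) (fun e f q => ?_)
        (s2 c (s1.mem_toFinset.1 hc'))
      simp only [l2, mul_left_inj' (dp N)] at q
      exact finFunctionFinEquiv.injective (Fin.ext q)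
    · rw [map_prod]
      refine Finset.prod_eq_zero (s1.mem_toFinset.2 c1) ?_
      rw [← mul_zero (∏ j : Fin k, (p.coeff d).eval (ξ (n + j + N)) ^ d), ← c2, Finset.mul_sum,
        map_sum]
      refine Finset.sum_congr rfl fun e _ => ?_
      rw [mul_left_comm, ← Finset.prod_mul_distrib]
      simp only [map_mul, map_prod, map_pow, map_add, ← aeval_algHom_apply, MvPolynomial.aeval_X,
        MvPolynomial.aeval_C, Sum.elim_inl, Sum.elim_inr, hP, coe_aeval_eq_eval, ← add_assoc,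
        Algebra.algebraMap_self, RingHom.id_apply]
      refine congrArg _ (Finset.prod_congr rfl fun j _ => ?_)
      rw [← pow_sub_mul_pow ((p.coeff d).eval (ξ (n + j + N))) (e j).2.le, mul_assoc, ← mul_pow, hβ]
      congr 2
      field_simp [hc (n + j + N)]
      ring
  have sh : ∀ τ : ℕ → K, ξ ∈ RS τ → ∀ i, e i ∈ RS τ := fun τ h => (he _ rs_inv fun j => by
    convert (RS τ).smul_mem h (a ^ j) using 1
    funext m
    rw [Pi.smul_apply, smul_eq_mul, hξ (m + j), hξ m]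
    ring).2
  obtain ⟨κ, c, c0, hc1⟩ := fac0 (p.coeff d)
  replace c0 := c0 fun z => hc 0 (by simp [hc1, z])
  have c1 : c ≠ 0 := fun z => c0 (by simp [z])
  have xN : ∀ m, ξ (m + N) = a ^ N * ξ m := fun m => by rw [hξ (m + N), hξ m]; ring
  refine (endl2 hd a0 a1 hξ ξ0 (k := κ) (D := C ((a ^ N) ^ κ) * c.comp (C (a ^ N) * X))
    (by simpa [mul_coeff_zero, coeff_zero_eq_eval_zero, a0] using c0) (sh ξ (rs_self ξ))
    (fun m => by
      rw [← rel, hc1, xN]
      simp only [eval_mul, eval_C, eval_comp, eval_X, eval_pow, zpow_natCast]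
      ring) hw).elim bad fun g0 => ?_
  refine (endl2 hd (inv_ne_zero a0) (fun j hj z => a1 j hj (by simpa using z)) (τ := ξ⁻¹)
    (fun m => by rw [Pi.inv_apply, hξ, mul_inv, inv_pow]; rfl) (inv_ne_zero ξ0)
    (k := -((κ + c.natDegree : ℕ) : ℤ))
    (D := C ((a ^ N) ^ (κ + c.natDegree)) * c.reverse.comp (C (a ^ N)⁻¹ * X))
    (by simpa [mul_coeff_zero, coeff_zero_eq_eval_zero, a0, ← coeff_zero_reverse] using
      leadingCoeff_ne_zero.2 c1)
    (sh _ (by simpa using rs_inv _ (rs_self ξ⁻¹) fun m => inv_ne_zero (ξn m)))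
    (fun m => by
      rw [← rel, hc1, eval_mul, eval_mul, ev_rev (ξn _) c, xN]
      simp only [eval_mul, eval_C, eval_comp, eval_X, eval_pow, Pi.inv_apply, inv_zpow', neg_neg,
        zpow_natCast, mul_inv]
      ring) hw).elim bad fun g1 => ?_
  obtain ⟨J, V, Q, i, j, l, h⟩ := gg hd pd rec a0 a1 hξ ξ0 hc hβ hS hy hc1 c0
    (fun v hv h => by simpa using g0 v hv h) fun v hv h => by
      simpa only [Pi.inv_apply, map_inv₀, inv_zpow', neg_neg, zpow_natCast] using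
        g1 v hv (by rw [map_inv₀]; exact inv_lt_one_of_one_lt₀ h)
  refine ⟨∏ s ∈ J, ∏ b ∈ V, ((MvPolynomial.X (.inl s) ^ i * MvPolynomial.X (.inr s) -
      aeval (MvPolynomial.X (.inl s)) Q) ^ (d - 1) * MvPolynomial.X (.inl s) ^ j -
      MvPolynomial.C b * MvPolynomial.X (.inl s) ^ l),
    .prod fun s _ => .prod fun b _ z hz q => ?_, h.mono fun n ⟨s, hs, b, hb, q⟩ => ?_⟩
  · simp only [map_sub, map_mul, map_pow, ← aeval_algHom_apply, MvPolynomial.aeval_X,
      MvPolynomial.aeval_C, Sum.elim_inl, Sum.elim_inr, ← C_eq_algebraMap, aeval_C_eq_C_eval] at q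
    have := congrArg natDegree q
    rw [← C_pow, ← C_pow, ← C_pow, ← C_mul, natDegree_sub_C, natDegree_mul_C
      (pow_ne_zero _ (ξn _)), natDegree_pow, natDegree_sub_C, natDegree_C_mul
      (pow_ne_zero _ (ξn _)), hz, natDegree_zero] at this
    exact mul_ne_zero (by omega) (dp s) this
  · simp only [map_prod]
    refine Finset.prod_eq_zero hs (Finset.prod_eq_zero hb ?_)
    simpa only [map_sub, map_mul, map_pow, ← aeval_algHom_apply, MvPolynomial.aeval_X,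
      MvPolynomial.aeval_C, Sum.elim_inl, Sum.elim_inr, coe_aeval_eq_eval, sub_eq_zero,
      Algebra.algebraMap_self, RingHom.id_apply] using q

end Pool.Agent.MP_c8dfda_nt.SL
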