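import Pool.Agent.MP_c8dfda_nt.sl.Loc2

/-! The alternative at an end of the base. -/

namespace Pool.Agent.MP_c8dfda_nt.SL

open NumberField Filter Height Topology Polynomial Pool.Agent.MP_c8dfda_nt.TG

variable {L : Type*} [Field L]

theorem mult_lt [CharZero L] {q : L[X]} {d i : ℕ} (qd : q.natDegree = d) (h1 : q.coeff (d - 1) = 0)
    (hi : i < d) (h2 : q.coeff i ≠ 0) (ζ : L) : q.rootMultiplicity ζ < d := by
  by_contra c
  have q0 : q ≠ 0 := fun e => h2 (by simp [e])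
  have e := eq_leadingCoeff_mul_of_monic_of_dvd_of_natDegree_le ((monic_X_sub_C ζ).pow d)
    ((le_rootMultiplicity_iff q0).1 (not_lt.1 c)) (by simp [qd])
  rw [sub_eq_add_neg, ← C_neg] at e
  rw [e, coeff_C_mul, coeff_X_add_C_pow] at h1 h2
  obtain ⟨f, rfl⟩ : ∃ f, d = f + 1 := ⟨d - 1, by omega⟩
  simp only [Nat.add_sub_cancel, Nat.add_sub_cancel_left, pow_one, Nat.choose_succ_self_right,
    mul_eq_zero, leadingCoeff_eq_zero, q0, false_or, Nat.cast_eq_zero, Nat.succ_ne_zero,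
    or_false] at h1
  rw [h1, zero_pow (by omega)] at h2
  simp at h2

theorem Sz.growth [NumberField L] {w : ℕ → L} {Λ : ℝ} (hs : ∀ n, Sz (w n) (Λ ^ (n + 1)))
    {v : AbsoluteValue L ℝ} (hv : Pl v) : ∃ A Λ' : ℝ, ∀ n, v (w n) ≤ A * Λ' ^ n :=
  ⟨(2 * Λ ^ 3) ^ Module.finrank ℚ L, (Λ ^ 3) ^ Module.finrank ℚ L, fun n =>
    ((hv.le_height _).trans (hs n).height).trans_eq (by ring)⟩

theorem badL [NumberField L] {N d μ : ℕ} (hd : 2 ≤ d) (μ0 : 0 < μ) {t w : ℕ → L} {α : L}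
    (α0 : α ≠ 0) {v : AbsoluteValue L ℝ} (hv : Pl v) (α1 : v α < 1) (ht : ∀ m, t m = α ^ m * t 0)
    (t0 : t 0 ≠ 0) {k r : ℤ} {D Q : L[X]} {o : ℕ → ℤ} {F : ℕ → L[X]} {δ : Fin N → L}
    (D0 : D.coeff 0 ≠ 0)
    (rel : ∀ m, (t m ^ μ) ^ k * D.eval (t m ^ μ) * w (m + N) ^ d + ∑ i ∈ Finset.range (d - 1),
      (t m ^ μ) ^ o i * (F i).eval (t m ^ μ) * w (m + N) ^ i =
      Q.eval (t m ^ μ) * (w (m + N + 1) - ∑ j, δ j * w (m + j)))
    {n : ℕ → ℕ} (hn : ∀ i < d - 1, F i ≠ 0 → (n i : ℤ) = μ * o i + (d - i) * r - μ * k) {n' : ℕ}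
    (hn' : (n' + 1 : ℤ) = (d - 1) * r - μ * k) {q : L[X]}
    (hq : ∀ i, q.coeff i = if i = d then D.coeff 0 else
      if i < d - 1 ∧ n i = 0 then (F i).coeff 0 else 0) (qs : q.Splits) {i0 : ℕ} (i0d : i0 < d)
    (q0 : q.coeff i0 ≠ 0) {Λ : ℝ} (hs : ∀ n, Sz (w n) (Λ ^ (n + 1))) :
    ∃ (k : ℕ) (s : Set ((Fin k → Fin d) → L)), s.Finite ∧ (∀ c ∈ s, ∃ e, c e ≠ 0) ∧
      ∀ᶠ n : ℕ in atTop, ∃ c ∈ s, ∑ e, c e * ∏ j : Fin k, w (n + j + N) ^ (e j : ℕ) = 0 := by
  have tn : ∀ m, t m ≠ 0 := fun m => by rw [ht]; exact mul_ne_zero (pow_ne_zero _ α0) t0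
  have qd : q.natDegree = d := natDegree_eq_of_le_of_coeff_ne_zero
    (natDegree_le_iff_coeff_eq_zero.2 fun i hi => by
      rw [hq, if_neg (by omega), if_neg (by omega)]) (by rwa [hq, if_pos rfl])
  have μ1 : (0 : ℝ) < μ := by exact_mod_cast μ0
  have a0 := v.pos α0
  obtain ⟨A, Λ', hA⟩ := Sz.growth hs hv
  obtain ⟨B, hB⟩ := loc2 v hd (τ := fun m => t m ^ μ) (ω := α ^ μ) (pow_ne_zero _ α0)
    (by rw [map_pow]; exact pow_lt_one₀ a0.le α1 μ0.ne') (fun m => by rw [ht]; ring)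
    (pow_ne_zero _ t0) D0 rel (ρ := r / μ) (by
      have : (n' + 1 : ℝ) = (d - 1) * r - μ * k := by exact_mod_cast hn'
      have z : (0 : ℝ) ≤ n' := n'.cast_nonneg
      field_simp
      linarith) (fun i hi h => by
      have : (n i : ℝ) = μ * o i + (d - i) * r - μ * k := by exact_mod_cast hn i hi h
      have z : (0 : ℝ) ≤ n i := (n i).cast_nonneg
      field_simp
      linarith) hA
  have eθ : v (α ^ μ) ^ (-((r : ℝ) / μ)) = (v α ^ r)⁻¹ := by
    rw [map_pow, ← Real.rpow_natCast, ← Real.rpow_mul a0.le, mul_neg, mul_div_cancel₀ _ μ1.ne',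
      Real.rpow_neg a0.le, Real.rpow_intCast]
  let E : ℕ → L[X] := fun i => if i = d then expand L μ D else
    if i < d - 1 then X ^ n i * expand L μ (F i) else 0
  have E0 : ∀ i, (E i).coeff 0 = q.coeff i := fun i => by
    rw [hq]
    simp only [E]
    by_cases c : i = d
    · simp [c, coeff_expand μ0]
    by_cases c' : i < d - 1
    · by_cases c'' : n i = 0 <;> simp [c, c', c'', coeff_expand μ0, mul_coeff_zero, coeff_X_pow,
        eq_comm (a := 0)]
    · simp [c, c']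
  have tj : ∀ m j, t (m + j) = α ^ j * t m := fun m j => by rw [ht (m + j), ht m]; ring
  refine runge hv hd (M := d + 1) (r := r.toNat) t (fun n => ((α ^ N)⁻¹ * t n) ^ r * w n)
    (fun m => w (m + N)) α0 α1 ht t0 qs qd
    (mult_lt qd (by rw [hq, if_neg (by omega), if_neg (by omega)]) i0d q0)
    (fun i => -(E i).divX) (fun j => -(C (δ j / ((α ^ N)⁻¹ * α ^ (j : ℕ)) ^ r) *
      (X ^ n' * expand L μ Q))) (C (α ^ r)⁻¹ * (X ^ n' * expand L μ Q)) (X ^ (-r).toNat)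
    (fun m => ?_) (fun m => ?_) (C := v (((α ^ N)⁻¹ * t 0) ^ r) * B) (fun m => ?_) (Λ := Λ ^ (N + 1))
    fun m => (hs _).mono ?_
  · have e1 : (α ^ N)⁻¹ * t (m + N) = t m := by rw [tj, inv_mul_cancel_left₀ (pow_ne_zero _ α0)]
    have e2 : (α ^ N)⁻¹ * t (m + N + 1) = α * t m := by rw [tj, mul_left_comm, e1, pow_one]
    have e3 : ∀ j : Fin N, (α ^ N)⁻¹ * t (m + j) = (α ^ N)⁻¹ * α ^ (j : ℕ) * t m := fun j => by
      rw [tj, mul_assoc]
    simp only [e1, e2, e3]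
    have h := congrArg (t m ^ (d * r - μ * k) * ·) (rel m)
    have tm := tn m
    generalize t m = T at h tm ⊢
    have z : ∀ (a b : ℤ) (i c : ℕ), (c : ℤ) + r * i = a + μ * b →
        T ^ a * (T ^ μ) ^ b = T ^ c * (T ^ r) ^ i := fun a b i c e => by
      rw [← zpow_natCast, ← zpow_natCast, ← zpow_natCast, ← zpow_mul, ← zpow_mul, ← zpow_add₀ tm,
        ← zpow_add₀ tm, e]
    have k1 : ∑ i ∈ Finset.range (d + 1), (E i).eval T * (T ^ r * w (m + N)) ^ i =
        T ^ (d * r - μ * k) * ((T ^ μ) ^ k * D.eval (T ^ μ) * w (m + N) ^ d +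
          ∑ i ∈ Finset.range (d - 1), (T ^ μ) ^ o i * (F i).eval (T ^ μ) * w (m + N) ^ i) := by
      obtain ⟨f, rfl⟩ : ∃ f, d = f + 1 := ⟨d - 1, by omega⟩
      rw [Finset.sum_range_succ, Finset.sum_range_succ, mul_add, Finset.mul_sum, add_comm]
      simp only [E, if_true, Nat.add_sub_cancel, lt_irrefl, if_false, f.succ_ne_self.symm,
        eval_zero, zero_mul, add_zero, expand_eval]
      refine congrArg₂ _ ?_ (Finset.sum_congr rfl fun i hi => ?_)
      · rw [← mul_assoc, ← mul_assoc, z _ _ (f + 1) 0 (by push_cast; ring)]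
        ring
      · have hi := Finset.mem_range.1 hi
        rw [if_neg (by omega), if_pos hi]
        by_cases c : F i = 0
        · simp [c]
        · rw [← mul_assoc, ← mul_assoc, z _ _ i (n i) (by rw [hn i hi c]; ring)]
          simp only [eval_mul, eval_pow, eval_X, expand_eval]
          ring
    have k2 := z (d * r - μ * k) 0 1 (n' + 1) (by push_cast; rw [hn']; ring)
    rw [zpow_zero, mul_one, pow_one] at k2
    rw [← k1, k2] at h
    rw [eval_eq_sum_range, qd]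
    simp only [← E0, ← ev_divX _ T, sub_mul, Finset.sum_sub_distrib, h, eval_neg, eval_mul, eval_C,
      eval_pow, eval_X, expand_eval, mul_add, mul_sub, Finset.mul_sum, mul_zpow]
    have a1 := zpow_ne_zero r α0
    have a2 : ∀ j : Fin N, ((α ^ N)⁻¹ ^ r * (α ^ (j : ℕ)) ^ r) ≠ 0 := fun j =>
      mul_ne_zero (zpow_ne_zero _ (inv_ne_zero (pow_ne_zero _ α0)))
        (zpow_ne_zero _ (pow_ne_zero _ α0))
    rw [sub_eq_add_neg, sub_eq_add_neg, ← Finset.sum_neg_distrib, ← Finset.sum_neg_distrib,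
      add_comm, ← add_assoc]
    refine congrArg₂ _ (congrArg₂ _ (Finset.sum_congr rfl fun i _ => by ring) (by field_simp; ring))
      (Finset.sum_congr rfl fun j _ => ?_)
    have := a2 j
    generalize (α ^ N)⁻¹ ^ r * (α ^ (j : ℕ)) ^ r = β at this
    field_simp
    ring
  · rw [tj, inv_mul_cancel_left₀ (pow_ne_zero _ α0), eval_pow, eval_X, ← mul_assoc, ← zpow_natCast,
      ← zpow_natCast, ← zpow_add₀ (tn m)]
    congr 2
    omega
  · have := hB m
    rw [eθ] at this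
    rw [ht, mul_left_comm, mul_zpow, map_mul, map_mul, mul_comm (v _) (v _), mul_assoc]
    refine mul_le_mul_of_nonneg_left ?_ (v.nonneg _)
    rw [← zpow_natCast, ← zpow_mul, mul_comm _ r, zpow_mul, zpow_natCast, map_pow, map_zpow₀]
    rwa [inv_pow, ← div_eq_mul_inv, le_div_iff₀' (by positivity)] at this
  · rw [← pow_mul]
    exact pow_le_pow_right₀ (by simpa using (hs 0).one_le) (by nlinarith)

theorem ht1 [NumberField L] (S : Finset (FinitePlace L)) : ∃ (T : Finset (AbsoluteValue L ℝ))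
    (ℓ : ℕ), (∀ v ∈ T, Pl v) ∧ ∀ (y : L) (B : ℝ), 1 ≤ B → (∀ v ∈ T, v y ≤ B) →
      (∀ v ∉ S, v y ≤ 1) → mulHeight₁ y ≤ B ^ ℓ := by
  classical
  refine ⟨(Finset.univ.image fun w : InfinitePlace L => w.1) ∪ S.image fun w => w.1,
    Module.finrank ℚ L + S.card, fun v hv => ?_, fun y B B1 h1 h2 => ?_⟩
  · simp only [Finset.mem_union, Finset.mem_image] at hv
    exact hv.imp (fun ⟨w, _, e⟩ => ⟨w, e⟩) fun ⟨w, _, e⟩ => ⟨w, e⟩
  rw [NumberField.mulHeight₁_eq, pow_add]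
  refine mul_le_mul ?_ (fp_le S _ B1 (fun _ => by positivity) (fun v hv => max_le (h1 v.1
    (Finset.mem_union_right _ (Finset.mem_image_of_mem _ hv))) B1) fun v hv =>
      max_le (h2 v hv) le_rfl) (finprod_nonneg fun _ => by positivity) (by positivity)
  rw [← InfinitePlace.sum_mult_eq, ← Finset.prod_pow_eq_pow_sum]
  exact Finset.prod_le_prod (fun _ _ => by positivity) fun w _ => pow_le_pow_left₀ (by positivity)
    (max_le (h1 w.1 (Finset.mem_union_left _ (Finset.mem_image_of_mem _ (Finset.mem_univ w)))) B1) _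

theorem pow_inj {a : L} (a0 : a ≠ 0) (a1 : ∀ j, 1 ≤ j → a ^ j ≠ 1) :
    Function.Injective fun n : ℕ => a ^ n := by
  refine Function.Injective.of_lt_imp_ne fun i j h e => ?_
  obtain ⟨l, rfl⟩ := Nat.exists_eq_add_of_lt h
  refine a1 (l + 1) (by omega) (mul_left_cancel₀ (pow_ne_zero i a0) ?_)
  rw [← pow_add, ← add_assoc, mul_one]
  exact e.symm

theorem ex_place [NumberField L] {a : L} (a0 : a ≠ 0) (a1 : ∀ j, 1 ≤ j → a ^ j ≠ 1) :
    ∃ v : AbsoluteValue L ℝ, Pl v ∧ v a < 1 := by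
  by_contra c
  push Not at c
  obtain ⟨T, ℓ, h1, h2⟩ := ht1 (L := L) ∅
  have h : ∀ v : AbsoluteValue L ℝ, Pl v → ∀ n : ℕ, v (a ^ n)⁻¹ ≤ 1 := fun v hv n => by
    rw [map_inv₀, map_pow]
    exact inv_le_one_of_one_le₀ (one_le_pow₀ (c v hv))
  refine Set.infinite_range_of_injective (pow_inj a0 a1)
    ((finite_setOfPred_mulHeight₁_le (K := L) 1).subset ?_)
  rintro _ ⟨n, rfl⟩
  simpa only [mulHeight₁_inv, one_pow, Set.mem_ofPred_eq] using h2 (a ^ n)⁻¹ 1 le_rfl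
    (fun v hv => h v (h1 v hv) n) fun v _ => h v.1 (.inr ⟨v, rfl⟩) n

theorem endl {K : Type*} [Field K] [NumberField K] {N d : ℕ} (hd : 2 ≤ d) {τ w : ℕ → K} {ω : K}
    (ω0 : ω ≠ 0) (ω1 : ∀ j, 1 ≤ j → ω ^ j ≠ 1) (hτ : ∀ m, τ m = ω ^ m * τ 0) (τ0 : τ 0 ≠ 0)
    {k : ℤ} {D Q : K[X]} {o : ℕ → ℤ} {F : ℕ → K[X]} {δ : Fin N → K} (D0 : D.coeff 0 ≠ 0)
    (hF : ∀ i, F i ≠ 0 → (F i).coeff 0 ≠ 0)
    (rel : ∀ m, τ m ^ k * D.eval (τ m) * w (m + N) ^ d + ∑ i ∈ Finset.range (d - 1),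
      τ m ^ o i * (F i).eval (τ m) * w (m + N) ^ i =
      Q.eval (τ m) * (w (m + N + 1) - ∑ j, δ j * w (m + j)))
    {Λ : ℝ} (hΛ : ∀ n, mulHeight₁ (w n) ≤ Λ ^ (n + 1)) :
    (∃ (k : ℕ) (s : Set ((Fin k → Fin d) → K)), s.Finite ∧ (∀ c ∈ s, ∃ e, c e ≠ 0) ∧
      ∀ᶠ n : ℕ in atTop, ∃ c ∈ s, ∑ e, c e * ∏ j : Fin k, w (n + j + N) ^ (e j : ℕ) = 0) ∨
    ∀ v : AbsoluteValue K ℝ, Pl v → v ω < 1 → ∃ C, ∀ n, v (w n) ^ (d - 1) * v (τ n) ^ k ≤ C := by
  classical
  have d1 : (0 : ℝ) < d - 1 := sub_pos.2 (by exact_mod_cast hd)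
  by_cases c : ∀ i < d - 1, F i ≠ 0 → ((k : ℝ) - o i) / (d - i) ≤ k / (d - 1)
  · refine .inr fun v hv v1 => ?_
    obtain ⟨B, hB⟩ := loc2 v hd ω0 v1 hτ τ0 D0 rel (ρ := k / (d - 1)) (by field_simp; linarith)
      (fun i hi h => by
        have := c i hi h
        have i1 : (i : ℝ) < d := by exact_mod_cast (by omega : i < d)
        rw [div_le_iff₀ (by linarith)] at this
        linarith) (A := Λ) (Λ := Λ) fun n => by
        rw [← pow_succ']; exact (hv.le_height _).trans (hΛ n)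
    have a0 := v.pos ω0
    refine ⟨B ^ (d - 1) * v (τ 0) ^ k, fun n => ?_⟩
    have e : (v ω ^ (-((k : ℝ) / (d - 1)))) ^ (d - 1) * v ω ^ k = 1 := by
      rw [← Real.rpow_mul_natCast a0.le, ← Real.rpow_intCast, ← Real.rpow_add a0,
        Nat.cast_pred (by omega), neg_mul, div_mul_cancel₀ _ d1.ne', neg_add_cancel, Real.rpow_zero]
    refine (mul_le_mul_of_nonneg_right (pow_le_pow_left₀ (v.nonneg _) (hB n) _)
      (zpow_nonneg (v.nonneg _) _)).trans_eq ?_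
    rw [hτ, map_mul, map_pow, mul_zpow, ← zpow_natCast (v ω), ← zpow_mul, mul_comm _ k, zpow_mul,
      zpow_natCast, mul_pow, pow_right_comm]
    linear_combination B ^ (d - 1) * v (τ 0) ^ k * congrArg (· ^ n) e
  left
  push Not at c
  obtain ⟨i1, h1, h2, h3⟩ := c
  obtain ⟨i0, h4, h5⟩ := Finset.exists_max_image ((Finset.range (d - 1)).filter fun i => F i ≠ 0)
    (fun i => ((k : ℝ) - o i) / (d - i)) ⟨i1, by simp [h1, h2]⟩
  simp only [Finset.mem_filter, Finset.mem_range, and_imp] at h4 h5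
  obtain ⟨μ, hμ⟩ : ∃ μ : ℕ, d = i0 + μ := ⟨d - i0, by omega⟩
  have μ0 : 0 < μ := by omega
  have μ1 : (d : ℝ) - i0 = μ := by rw [hμ]; push_cast; ring
  have μ2 : (0 : ℝ) < μ := by exact_mod_cast μ0
  rw [μ1] at h5
  let n : ℕ → ℕ := fun i => (μ * o i + (d - i) * (k - o i0) - μ * k).toNat
  have hn : ∀ i < d - 1, F i ≠ 0 → (n i : ℤ) = μ * o i + (d - i) * (k - o i0) - μ * k :=
    fun i hi h => Int.toNat_of_nonneg (by
      have i1 : (i : ℝ) < d := by exact_mod_cast (by omega : i < d)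
      have := (div_le_div_iff₀ (by linarith) μ2).1 (h5 i hi h)
      have : (0 : ℝ) ≤ μ * o i + (d - i) * (k - o i0) - μ * k := by linarith
      exact_mod_cast this)
  obtain ⟨n', hn'⟩ : ∃ n' : ℕ, (n' + 1 : ℤ) = (d - 1) * (k - o i0) - μ * k := by
    have := (div_lt_div_iff₀ d1 μ2).1 (h3.trans_le (h5 i1 h1 h2))
    have : (0 : ℝ) < (d - 1) * (k - o i0) - μ * k := by linarith
    have : (0 : ℤ) < (d - 1) * (k - o i0) - μ * k := by exact_mod_cast this
    exact ⟨((d - 1) * (k - o i0) - μ * k - 1).toNat, by omega⟩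
  obtain ⟨q, hq⟩ : ∃ q : K[X], ∀ i, q.coeff i = if i = d then D.coeff 0 else
      if i < d - 1 ∧ n i = 0 then (F i).coeff 0 else 0 := by
    refine ⟨∑ i ∈ Finset.range (d + 1), monomial i (if i = d then D.coeff 0 else
      if i < d - 1 ∧ n i = 0 then (F i).coeff 0 else 0), fun i => ?_⟩
    simp only [finsetSum_coeff, coeff_monomial, Finset.sum_ite_eq', Finset.mem_range]
    by_cases c : i < d + 1
    · rw [if_pos c]
    · rw [if_neg c, if_neg (by omega), if_neg (by omega)]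
  have q0 : q.coeff i0 ≠ 0 := by
    rw [hq, if_neg (by omega), if_pos ⟨h4.1, by
      have := hn i0 h4.1 h4.2
      rw [show (d : ℤ) - i0 = μ by omega] at this
      have : (n i0 : ℤ) = 0 := by linarith
      omega⟩]
    exact hF _ h4.2
  have q1 : q ≠ 0 := fun e => q0 (by simp [e])
  let L := (q * ((X ^ μ - C (τ 0)) * (X ^ μ - C ω))).SplittingField
  have : NumberField L := NumberField.of_module_finite K L
  have sp := SplittingField.splits (q * ((X ^ μ - C (τ 0)) * (X ^ μ - C ω)))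
  have x0 : ∀ a : K, (X ^ μ - C a : K[X]) ≠ 0 := fun a => X_pow_sub_C_ne_zero μ0 a
  have sp0 := Polynomial.map_ne_zero (f := algebraMap K L)
    (mul_ne_zero q1 (mul_ne_zero (x0 (τ 0)) (x0 ω)))
  have rt : ∀ a : K, X ^ μ - C a ∣ q * ((X ^ μ - C (τ 0)) * (X ^ μ - C ω)) →
      ∃ b : L, b ^ μ = algebraMap K L a := fun a ha => by
    obtain ⟨b, hb⟩ := (sp.of_dvd sp0 (Polynomial.map_dvd _ ha)).exists_eval_eq_zero (by
      rw [degree_map, degree_X_pow_sub_C μ0]; exact_mod_cast μ0.ne')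
    exact ⟨b, by simpa [sub_eq_zero] using hb⟩
  obtain ⟨t0, ht0⟩ := rt _ ((dvd_mul_right _ _).mul_left _)
  obtain ⟨α, hα⟩ := rt _ ((dvd_mul_left _ _).mul_left _)
  have α0 : α ≠ 0 := fun e => ω0 (by simpa [e, μ0.ne'] using hα.symm)
  obtain ⟨v, hv, v1⟩ := ex_place α0 fun j hj e => ω1 j hj ((algebraMap K L).injective (by
    rw [map_pow, ← hα, pow_right_comm, e, one_pow, map_one]))
  obtain ⟨k', s, s1, s2, s3⟩ := badL hd μ0 (t := fun m => α ^ m * t0)
    (w := fun m => algebraMap K L (w m)) α0 hv v1 (fun m => by simp)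
    (fun e => τ0 (by simpa [show t0 = 0 by simpa using e, μ0.ne'] using ht0.symm))
    (D := D.map (algebraMap K L)) (Q := Q.map (algebraMap K L)) (o := o)
    (F := fun i => (F i).map (algebraMap K L)) (δ := fun j => algebraMap K L (δ j))
    (by simpa using D0) (fun m => by
      have e : (α ^ m * t0) ^ μ = algebraMap K L (τ m) := by
        rw [mul_pow, pow_right_comm, hα, ht0, hτ m, map_mul, map_pow]
      simpa [e, aeval_algebraMap_apply_eq_algebraMap_eval] using congrArg (algebraMap K L) (rel m))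
    (fun i hi h => hn i hi fun e => h (by simp [e])) hn' (q := q.map (algebraMap K L))
    (fun i => by simp only [coeff_map, hq, apply_ite (algebraMap K L), map_zero])
    (sp.of_dvd sp0 (Polynomial.map_dvd _ (dvd_mul_right _ _))) (i0 := i0) (by omega)
    (by simpa using q0) fun n => (sz_ext (w n)).mono (hΛ n)
  have : ∀ c : (Fin k' → Fin d) → L, ∃ φ : Module.Dual K L, (∃ e, c e ≠ 0) → ∃ e, φ (c e) ≠ 0 :=
    fun c => by
      by_contra z
      push Not at z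
      obtain ⟨e, he⟩ := (z 0).1
      exact he ((Module.forall_dual_apply_eq_zero_iff K _).1 fun φ => (z φ).2 e)
  choose φ hφ using this
  refine ⟨k', (fun c e => φ c (c e)) '' s, s1.image _, ?_, s3.mono fun n ⟨c, c1, c2⟩ =>
    ⟨_, ⟨c, c1, rfl⟩, ?_⟩⟩
  · rintro _ ⟨c, hc, rfl⟩
    exact hφ c (s2 c hc)
  · have := congrArg (φ c) c2
    simp only [← map_pow, ← map_prod, mul_comm (c _), ← Algebra.smul_def, map_sum, map_smul,
      map_zero, smul_eq_mul] at this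
    simpa only [mul_comm] using this

end Pool.Agent.MP_c8dfda_nt.SL
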