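import Mathlib

/-! Escape or boundedness at one absolute value. -/

namespace Pool.Agent.MP_c8dfda_nt.SL

open Filter

theorem esc (μ : ℕ → ℝ) {C : ℝ} {d n0 : ℕ} (hd : 2 ≤ d) (C1 : 1 ≤ C) (μ0 : ∀ n, 0 ≤ μ n)
    (h : ∀ n, n0 ≤ n → 1 ≤ μ n → (∀ j ≤ n, μ j ≤ μ n) →
      μ n ^ d ≤ C * (μ (n + 1) + μ n ^ (d - 1))) :
    (∃ B, ∀ n, μ n ≤ B) ∨ ∃ c : ℝ, 0 < c ∧ ∀ᶠ n : ℕ in atTop, c * d ^ n ≤ Real.log (μ n) := by
  classical
  refine or_iff_not_imp_left.2 fun hc => ?_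
  push Not at hc
  have s0 : 0 ≤ ∑ j ∈ Finset.range n0, μ j := Finset.sum_nonneg fun j _ => μ0 j
  have ex := hc (2 * C + ∑ j ∈ Finset.range n0, μ j)
  set n := Nat.find ex
  have h1 : 2 * C + ∑ j ∈ Finset.range n0, μ j < μ n := Nat.find_spec ex
  have h2 : n0 ≤ n := by
    by_contra z
    have := Finset.single_le_sum (f := μ) (fun j _ => μ0 j) (Finset.mem_range.2 (not_le.1 z))
    linarith
  have ν1 : 1 < μ n / (2 * C) := (one_lt_div (by linarith)).2 (by linarith)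
  obtain ⟨e, rfl⟩ : ∃ e, d = e + 2 := ⟨d - 2, by omega⟩
  have key : ∀ k, (∀ j ≤ n + k, μ j ≤ μ (n + k)) ∧
      (μ n / (2 * C)) ^ (e + 2) ^ k ≤ μ (n + k) / (2 * C) := fun k => by
    induction k with
    | zero =>
      refine ⟨fun j hj => ?_, by simp⟩
      rcases hj.eq_or_lt with rfl | hj
      · exact le_rfl
      · exact (not_lt.1 (Nat.find_min ex hj)).trans h1.le
    | succ k ih =>
      have a1 : 2 * C ≤ μ (n + k) := by linarith [ih.1 n (by omega)]
      have a2 := h (n + k) (by omega) (by linarith) ih.1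
      rw [show e + 2 - 1 = e + 1 from rfl] at a2
      have a3 : (2 * C) ^ e ≤ μ (n + k) ^ e := pow_le_pow_left₀ (by linarith) a1 e
      have a4 : 1 ≤ (2 * C) ^ e := one_le_pow₀ (by linarith)
      have a5 : μ (n + k) ^ (e + 2) ≤ 2 * C * μ (n + k + 1) := by
        have : 2 * C * μ (n + k) ^ (e + 1) ≤ μ (n + k) * μ (n + k) ^ (e + 1) :=
          mul_le_mul_of_nonneg_right a1 (pow_nonneg (μ0 _) _)
        rw [← pow_succ'] at this
        linarith
      have a6 : μ (n + k) ≤ μ (n + k + 1) := by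
        refine le_of_mul_le_mul_left (le_trans ?_ a5) (by linarith : 0 < 2 * C)
        rw [pow_add, sq]
        have := mul_le_mul_of_nonneg_right a1 (μ0 (n + k))
        exact this.trans (le_mul_of_one_le_left (mul_self_nonneg _) (a4.trans a3))
      refine ⟨fun j hj => ?_, ?_⟩
      · rcases hj.eq_or_lt with rfl | hj
        · exact le_rfl
        · exact (ih.1 j (by omega)).trans a6
      · rw [pow_succ, pow_mul]
        refine (pow_le_pow_left₀ (by positivity) ih.2 _).trans ?_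
        rw [div_pow, div_le_div_iff₀ (by positivity) (by positivity), ← add_assoc]
        have b0 := μ0 (n + k + 1)
        calc _ ≤ 2 * C * μ (n + k + 1) * (2 * C) := mul_le_mul_of_nonneg_right a5 (by positivity)
          _ = μ (n + k + 1) * (1 * (2 * C) ^ 2) := by ring
          _ ≤ _ := by
            rw [pow_add]
            gcongr
  have l0 := Real.log_pos ν1
  refine ⟨Real.log (μ n / (2 * C)) / ((e + 2 : ℕ) : ℝ) ^ n, by positivity,
    eventually_atTop.2 ⟨n, fun j hj => ?_⟩⟩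
  obtain ⟨k, rfl⟩ := Nat.exists_eq_add_of_le hj
  have a := Real.log_le_log (by positivity) ((key k).2.trans
    (div_le_self (μ0 _) (by linarith)))
  rw [Real.log_pow] at a
  refine le_trans (le_of_eq ?_) a
  push_cast
  field_simp
  ring

theorem loc {L : Type*} [Field L] (v : AbsoluteValue L ℝ) {N d m0 : ℕ} (hd : 2 ≤ d) (z g : ℕ → L)
    (e : ℕ → ℕ → L) (δ : Fin N → ℕ → L)
    (hz : ∀ m, m0 ≤ m → z (m + N) ^ d = g m * z (m + N + 1) +
      ∑ i ∈ Finset.range d, e i m * z (m + N) ^ i + ∑ j, δ j m * z (m + j))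
    (σ : ℕ → ℝ) (σ0 : ∀ n, 0 < σ n) {C : ℝ}
    (hg : ∀ m, m0 ≤ m → v (g m) * σ (m + N + 1) ≤ C * σ (m + N) ^ d)
    (he : ∀ i < d, ∀ m, m0 ≤ m → v (e i m) * σ (m + N) ^ i ≤ C * σ (m + N) ^ d)
    (hδ : ∀ j m, m0 ≤ m → v (δ j m) * σ (m + j) ≤ C * σ (m + N) ^ d) :
    (∃ B, ∀ n, v (z n) ≤ B * σ n) ∨
      ∃ c : ℝ, 0 < c ∧ ∀ᶠ n : ℕ in atTop, c * d ^ n ≤ Real.log (v (z n) / σ n) := by
  have C0 : 0 ≤ C := by
    have := (mul_nonneg (v.nonneg _) (σ0 _).le).trans (hg m0 le_rfl)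
    exact nonneg_of_mul_nonneg_left this (pow_pos (σ0 _) _)
  refine (esc (fun n => v (z n) / σ n) (C := 1 + (1 + d + N) * C) (n0 := m0 + N) hd
    (le_add_of_nonneg_right (by positivity)) (fun n => div_nonneg (v.nonneg _) (σ0 n).le)
    (fun n hn M1 hM => ?_)).imp (fun ⟨B, hB⟩ => ⟨B, fun n => (div_le_iff₀ (σ0 n)).1 (hB n)⟩) id
  obtain ⟨m, rfl⟩ : ∃ m, n = m + N := ⟨n - N, by omega⟩
  have hm : m0 ≤ m := by omega
  set M := v (z (m + N)) / σ (m + N)
  set M' := v (z (m + N + 1)) / σ (m + N + 1)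
  have M'0 : 0 ≤ M' := div_nonneg (v.nonneg _) (σ0 _).le
  have s0 := σ0 (m + N)
  have e1 : v (z (m + N)) = M * σ (m + N) := (div_mul_cancel₀ _ (σ0 _).ne').symm
  have Md : M ≤ M ^ (d - 1) := le_self_pow₀ M1 (by omega)
  have P0 : 0 ≤ M ^ (d - 1) := by positivity
  have b1 : v (g m * z (m + N + 1)) ≤ M' * (C * σ (m + N) ^ d) := by
    rw [map_mul, ← div_mul_cancel₀ (v (z (m + N + 1))) (σ0 (m + N + 1)).ne', mul_left_comm]
    exact mul_le_mul_of_nonneg_left (hg m hm) M'0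
  have b2 : v (∑ i ∈ Finset.range d, e i m * z (m + N) ^ i) ≤
      d * (M ^ (d - 1) * (C * σ (m + N) ^ d)) := by
    refine (v.sum_le _ _).trans ((Finset.sum_le_card_nsmul _ _ _ fun i hi => ?_).trans_eq
      (by rw [Finset.card_range, nsmul_eq_mul]))
    have hi := Finset.mem_range.1 hi
    rw [map_mul, map_pow, e1, mul_pow, mul_left_comm]
    exact mul_le_mul (pow_le_pow_right₀ M1 (by omega)) (he i hi m hm) (by positivity) P0
  have b3 : v (∑ j, δ j m * z (m + j)) ≤ N * (M ^ (d - 1) * (C * σ (m + N) ^ d)) := by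
    refine (v.sum_le _ _).trans ((Finset.sum_le_card_nsmul _ _ _ fun j _ => ?_).trans_eq
      (by rw [Finset.card_fin, nsmul_eq_mul]))
    rw [map_mul, ← div_mul_cancel₀ (v (z (m + j))) (σ0 (m + j)).ne', mul_left_comm]
    exact mul_le_mul ((hM (m + j) (by omega)).trans Md) (hδ j m hm)
      (mul_nonneg (v.nonneg _) (σ0 _).le) P0
  have b4 := (v.add_le _ _).trans (add_le_add ((v.add_le _ _).trans (add_le_add b1 b2)) b3)
  rw [← hz m hm, map_pow, e1, mul_pow] at b4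
  refine le_of_mul_le_mul_right (b4.trans ?_) (by positivity : 0 < σ (m + N) ^ d)
  have q : 0 ≤ (M' + M ^ (d - 1) + C * M ^ (d - 1) + (d + N) * C * M') * σ (m + N) ^ d := by
    positivity
  linarith

theorem no_esc {μ : ℕ → ℝ} {A Λ : ℝ} {d : ℕ} (hd : 2 ≤ d) (μ0 : ∀ n, 0 ≤ μ n)
    (h : ∀ n, μ n ≤ A * Λ ^ n) :
    ¬ ∃ c : ℝ, 0 < c ∧ ∀ᶠ n : ℕ in atTop, c * d ^ n ≤ Real.log (μ n) := by
  rintro ⟨c, c0, hc⟩
  have d1 : (1 : ℝ) < d := by exact_mod_cast hd
  have t0 := (tendsto_pow_const_div_const_pow_of_one_lt 0 d1).const_mul (Real.log (max 1 A))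
  have t1 := (tendsto_pow_const_div_const_pow_of_one_lt 1 d1).const_mul (Real.log (max 1 |Λ|))
  have t := t0.add t1
  rw [mul_zero, mul_zero, add_zero] at t
  obtain ⟨n, h1, h2⟩ := (hc.and (t.eventually (gt_mem_nhds c0))).exists
  rw [← mul_div_assoc, ← mul_div_assoc, ← add_div, div_lt_iff₀ (by positivity), pow_zero, pow_one,
    mul_one, mul_comm _ (n : ℝ), ← Real.log_pow, ← Real.log_mul (by positivity) (by positivity)]
    at h2
  have p : 0 < c * d ^ n := by positivity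
  have h3 : 0 < μ n := (μ0 n).lt_of_ne fun e => by rw [← e, Real.log_zero] at h1; linarith
  refine (h1.trans (Real.log_le_log h3 ((h n).trans ?_))).not_gt h2
  refine (le_abs_self _).trans ?_
  rw [abs_mul, abs_pow]
  have : 0 ≤ A := by simpa using (μ0 0).trans (h 0)
  rw [abs_of_nonneg this]
  gcongr
  exacts [le_max_right _ _, le_max_right _ _]

end Pool.Agent.MP_c8dfda_nt.SL
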