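import Mathlib

/-! A weight filtration and a counting lemma. -/

namespace Pool.Agent.MP_c8dfda_nt.SL

variable {L A Γ : Type*} [Field L] [CommRing A] [Algebra L A] [Fintype Γ]

/-- The span of the monomials of weight at least `s`. -/
def Fil (L : Type*) [Field L] [Algebra L A] (g : Γ → A) (ω : Γ → ℕ) (s : ℕ) : Submodule L A :=
  Submodule.span L {x | ∃ e : Γ → ℕ, s ≤ ∑ γ, ω γ * e γ ∧ x = ∏ γ, g γ ^ e γ}

variable {g : Γ → A} {ω : Γ → ℕ}

theorem fil_anti {s t : ℕ} (h : s ≤ t) : Fil L g ω t ≤ Fil L g ω s :=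
  Submodule.span_mono fun _ ⟨e, h1, h2⟩ => ⟨e, h.trans h1, h2⟩

theorem fil_mono (e : Γ → ℕ) : ∏ γ, g γ ^ e γ ∈ Fil L g ω (∑ γ, ω γ * e γ) :=
  Submodule.subset_span ⟨e, le_rfl, rfl⟩

theorem fil_mul {s t : ℕ} {x y : A} (hx : x ∈ Fil L g ω s) (hy : y ∈ Fil L g ω t) :
    x * y ∈ Fil L g ω (s + t) := by
  refine (?_ : Fil L g ω s * Fil L g ω t ≤ _) (Submodule.mul_mem_mul hx hy)
  rw [Fil, Fil, Submodule.span_mul_span]
  refine Submodule.span_mono ?_
  rintro _ ⟨_, ⟨e, h1, rfl⟩, _, ⟨f, h2, rfl⟩, rfl⟩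
  refine ⟨e + f, ?_, ?_⟩
  · simp only [Pi.add_apply, mul_add, Finset.sum_add_distrib]
    omega
  · simp only [Pi.add_apply, pow_add, Finset.prod_mul_distrib]

theorem fil_one : (1 : A) ∈ Fil L g ω 0 := by
  simpa using fil_mono (L := L) (g := g) (ω := ω) 0

theorem fil_gen (γ : Γ) : g γ ∈ Fil L g ω (ω γ) := by
  classical
  have := fil_mono (L := L) (g := g) (ω := ω) (Pi.single γ 1)
  rwa [Finset.prod_eq_single γ (fun b _ hb => by simp [hb]) (by simp),
    Finset.sum_eq_single γ (fun b _ hb => by simp [hb]) (by simp), Pi.single_eq_same, pow_one,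
    mul_one] at this

theorem fil_pow {s : ℕ} {x : A} (hx : x ∈ Fil L g ω s) (n : ℕ) : x ^ n ∈ Fil L g ω (s * n) := by
  induction n with
  | zero => simpa using fil_one
  | succ n ih => rw [pow_succ, mul_add, mul_one]; exact fil_mul ih hx

theorem fil_mul0 {s : ℕ} {x y : A} (hx : x ∈ Fil L g ω s) (hy : y ∈ Fil L g ω 0) :
    x * y ∈ Fil L g ω s := fil_mul hx hy

theorem fil_const (c : L) : algebraMap L A c ∈ Fil L g ω 0 := by
  rw [Algebra.algebraMap_eq_smul_one]
  exact Submodule.smul_mem _ _ fil_one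

theorem fil_aeval {x : A} (hx : x ∈ Fil L g ω 0) (p : Polynomial L) :
    Polynomial.aeval x p ∈ Fil L g ω 0 := by
  rw [Polynomial.aeval_eq_sum_range]
  exact Submodule.sum_mem _ fun i _ => Submodule.smul_mem _ _ (by simpa using fil_pow hx i)

theorem fil_prod {ι : Type*} (s : Finset ι) {x : ι → A} (hx : ∀ i, x i ∈ Fil L g ω 0) :
    ∏ i ∈ s, x i ∈ Fil L g ω 0 :=
  Finset.prod_induction _ (· ∈ Fil L g ω 0) (fun _ _ => fil_mul0) fil_one fun i _ => hx i

theorem fil_red (ω1 : ∀ γ, 1 ≤ ω γ) (m : Γ → ℕ) (T : ℕ)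
    (h : ∀ γ, T ≤ m γ ∨ g γ ^ m γ ∈ Fil L g ω (ω γ * m γ + 1)) :
    Fil L g ω 0 ≤ Submodule.span L (Set.range fun e : (γ : Γ) → Fin (m γ) =>
      ∏ γ, g γ ^ (e γ : ℕ)) ⊔ Fil L g ω T := by
  classical
  set V := Submodule.span L (Set.range fun e : (γ : Γ) → Fin (m γ) => ∏ γ, g γ ^ (e γ : ℕ))
  have key : ∀ j s, T ≤ s + j → Fil L g ω s ≤ V ⊔ Fil L g ω T := fun j => by
    induction j with
    | zero => exact fun s hs => le_sup_of_le_right (fil_anti hs)
    | succ j ih =>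
      intro s hs
      refine Submodule.span_le.2 ?_
      rintro _ ⟨e, h1, rfl⟩
      by_cases c : ∀ γ, e γ < m γ
      · exact Submodule.mem_sup_left (Submodule.subset_span ⟨fun γ => ⟨e γ, c γ⟩, rfl⟩)
      push Not at c
      obtain ⟨γ, hγ⟩ := c
      rcases h γ with h2 | h2
      · refine Submodule.mem_sup_right (fil_anti ?_ (fil_mono e))
        refine le_trans ?_ (Finset.single_le_sum (f := fun γ => ω γ * e γ)
          (fun _ _ => Nat.zero_le _) (Finset.mem_univ γ))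
        exact (h2.trans hγ).trans (Nat.le_mul_of_pos_left _ (ω1 γ))
      · obtain ⟨f, rfl⟩ : ∃ f, e = f + Pi.single γ (m γ) :=
          ⟨e - Pi.single γ (m γ), funext fun b => by
            by_cases hb : b = γ
            · subst hb; simp [Nat.sub_add_cancel hγ]
            · simp [hb]⟩
        simp only [Pi.add_apply, mul_add, Finset.sum_add_distrib, pow_add,
          Finset.prod_mul_distrib] at h1 ⊢
        rw [Finset.sum_eq_single (f := fun b => ω b * (Pi.single γ (m γ) : Γ → ℕ) b) γ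
          (fun b _ hb => by simp [hb]) (by simp), Pi.single_eq_same] at h1
        rw [Finset.prod_eq_single (f := fun b => g b ^ (Pi.single γ (m γ) : Γ → ℕ) b) γ
          (fun b _ hb => by simp [hb]) (by simp), Pi.single_eq_same]
        exact ih (s + 1) (by omega) (fil_anti (by omega) (fil_mul (fil_mono f) h2))
  exact key T 0 (by omega)

theorem fil_dep (ω1 : ∀ γ, 1 ≤ ω γ) (m : Γ → ℕ) (T : ℕ)
    (h : ∀ γ, T ≤ m γ ∨ g γ ^ m γ ∈ Fil L g ω (ω γ * m γ + 1)) {J : Type*} [Fintype J]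
    (hJ : ∏ γ, m γ < Fintype.card J) (φ : J → A) (hφ : ∀ j, φ j ∈ Fil L g ω 0) :
    ∃ c : J → L, (∃ j, c j ≠ 0) ∧ ∑ j, c j • φ j ∈ Fil L g ω T := by
  classical
  choose a ha b hb hab using fun j => Submodule.mem_sup.1 (fil_red ω1 m T h (hφ j))
  choose u hu using fun j => (Submodule.mem_span_range_iff_exists_fun L).1 (ha j)
  have : ¬ LinearIndependent L u := fun z => by
    have := z.fintype_card_le_finrank
    rw [Module.finrank_fintype_fun_eq_card, Fintype.card_pi] at this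
    simp only [Fintype.card_fin] at this
    omega
  obtain ⟨c, c1, c2⟩ := Fintype.not_linearIndependent_iff.1 this
  refine ⟨c, c2, ?_⟩
  have e : ∑ j, c j • a j = 0 := by
    simp only [← hu, Finset.smul_sum, smul_smul]
    rw [Finset.sum_comm]
    refine Finset.sum_eq_zero fun e _ => ?_
    rw [← Finset.sum_smul, show ∑ j, c j * u j e = 0 by simpa using congrFun c1 e, zero_smul]
  simp only [← hab, smul_add, Finset.sum_add_distrib, e, zero_add]
  exact Submodule.sum_mem _ fun j _ => Submodule.smul_mem _ _ (hb j)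

/-- Elements of high weight are small. -/
theorem fil_small {g : Γ → ℕ → L} (v : AbsoluteValue L ℝ) (I : Set ℕ) (τ : ℕ → ℝ)
    (τ0 : ∀ n, 0 ≤ τ n) (τ1 : ∀ n, τ n ≤ 1)
    (hg : ∀ γ, ∃ C, ∀ n ∈ I, v (g γ n) ≤ C * τ n ^ ω γ) {s : ℕ} {x : ℕ → L}
    (hx : x ∈ Fil L g ω s) : ∃ C, ∀ n ∈ I, v (x n) ≤ C * τ n ^ s := by
  induction hx using Submodule.span_induction with
  | mem x hx =>
    obtain ⟨e, h1, rfl⟩ := hx
    choose C hC using hg
    refine ⟨∏ γ, |C γ| ^ e γ, fun n hn => ?_⟩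
    refine le_trans ?_ (mul_le_mul_of_nonneg_left (pow_le_pow_of_le_one (τ0 n) (τ1 n) h1)
      (by positivity))
    rw [Finset.prod_apply, map_prod, ← Finset.prod_pow_eq_pow_sum, ← Finset.prod_mul_distrib]
    refine Finset.prod_le_prod (fun _ _ => v.nonneg _) fun γ _ => ?_
    rw [Pi.pow_apply, map_pow, pow_mul, ← mul_pow]
    exact pow_le_pow_left₀ (v.nonneg _) ((hC γ n hn).trans
      (mul_le_mul_of_nonneg_right (le_abs_self _) (pow_nonneg (τ0 n) _))) _
  | zero => exact ⟨0, fun n _ => by simp⟩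
  | add x y _ _ hx hy =>
    obtain ⟨C, hC⟩ := hx
    obtain ⟨D, hD⟩ := hy
    refine ⟨C + D, fun n hn => (v.add_le _ _).trans ?_⟩
    rw [add_mul]
    exact add_le_add (hC n hn) (hD n hn)
  | smul a x _ hx =>
    obtain ⟨C, hC⟩ := hx
    refine ⟨v a * C, fun n hn => ?_⟩
    rw [Pi.smul_apply, smul_eq_mul, map_mul, mul_assoc]
    exact mul_le_mul_of_nonneg_left (hC n hn) (v.nonneg _)

end Pool.Agent.MP_c8dfda_nt.SL
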