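import Pool.Agent.MP_c8dfda_nt.sl.MaxP

/-! The case where both ends of the base are balanced. -/

namespace Pool.Agent.MP_c8dfda_nt.SL

open NumberField Filter Height Topology Polynomial Pool.Agent.MP_c8dfda_nt.TG
open scoped Polynomial.Bivariate

variable {K : Type*} [Field K] {N d : ℕ} {p : K[X][Y]} {ξ y : ℕ → K} {δ : Fin N → K}

theorem ev_rev {x : K} (x0 : x ≠ 0) (f : K[X]) :
    f.eval x = x ^ f.natDegree * f.reverse.eval x⁻¹ := by
  have := invertibleOfNonzero x0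
  have h := eval₂_reverse_mul_pow (RingHom.id K) x f
  rw [invOf_eq_inv, eval₂_id, eval₂_id] at h
  rw [← h, mul_comm]

theorem pfrac {c : K[X]} (c0 : c.coeff 0 ≠ 0) (κ : ℕ) (n : K[X]) :
    ∃ R Q : K[X], R.degree < c.degree ∧ n = R * X ^ κ + Q * c := by
  have c1 : c ≠ 0 := fun e => c0 (by simp [e])
  obtain ⟨A, B, h⟩ := ((irreducible_X.coprime_iff_not_dvd).2
    fun e => c0 (X_dvd_iff.1 e)).pow_left (m := κ)
  refine ⟨n * A % c, X ^ κ * (n * A / c) + n * B, degree_mod_lt _ c1, ?_⟩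
  linear_combination -n * h - X ^ κ * EuclideanDomain.div_add_mod (n * A) c

theorem small_inf (v : AbsoluteValue K ℝ) {a : K} (hξ : ∀ m, ξ m = a ^ m * ξ 0)
    (ξ0 : ∀ m, ξ m ≠ 0) (h : 1 < v a) {R c : K[X]} (hR : R.degree < c.degree) :
    ∃ B, ∀ᶠ m : ℕ in atTop, v (ξ m)⁻¹ ≤ 1 ∧
      v (R.eval (ξ m) / c.eval (ξ m)) ≤ B * v (ξ m)⁻¹ := by
  have hτ : ∀ m, (ξ m)⁻¹ = a⁻¹ ^ m * (ξ 0)⁻¹ := fun m => by rw [hξ, mul_inv, inv_pow]
  have a1 : v a⁻¹ < 1 := by rw [map_inv₀]; exact inv_lt_one_of_one_lt₀ h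
  have t := (tendsto_pow_atTop_nhds_zero_of_lt_one (v.nonneg _) a1).mul_const (v (ξ 0)⁻¹)
  rw [zero_mul] at t
  have t1 : ∀ᶠ m : ℕ in atTop, v (ξ m)⁻¹ ≤ 1 := (t.eventually (ge_mem_nhds one_pos)).mono
    fun m hm => by rwa [hτ, map_mul, map_pow]
  by_cases z : R = 0
  · exact ⟨0, t1.mono fun m hm => ⟨hm, by simp [z]⟩⟩
  obtain ⟨s, hs⟩ := Nat.exists_eq_add_of_lt (natDegree_lt_natDegree z hR)
  have c0 : c.reverse.coeff 0 ≠ 0 := by
    rw [coeff_zero_reverse, leadingCoeff_ne_zero]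
    exact fun e => by simp [e] at hR
  obtain ⟨B, B0, hB⟩ := ev_bd v (geo_le v (τ := fun m => (ξ m)⁻¹) hτ a1.le) R.reverse
  have d0 := half_pos (v.pos c0)
  refine ⟨B / (v (c.reverse.coeff 0) / 2), ?_⟩
  filter_upwards [t1, ev_low v (τ := fun m => (ξ m)⁻¹) hτ a1 c0] with m h1 h2
  refine ⟨h1, ?_⟩
  rw [ev_rev (ξ0 m) R, ev_rev (ξ0 m) c, hs, add_assoc, pow_add, mul_assoc,
    mul_div_mul_left _ _ (pow_ne_zero _ (ξ0 m)), div_mul_eq_div_div_swap, div_eq_mul_inv _ (_ ^ _),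
    ← inv_pow, map_mul, map_div₀, map_pow]
  exact mul_le_mul (div_le_div₀ B0 (hB m) d0 h2) (pow_le_of_le_one (v.nonneg _) h1 s.succ_ne_zero)
    (by positivity) (by positivity)

theorem int_off [NumberField K] {a : K} (hξ : ∀ m, ξ m = a ^ m * ξ 0) (Q : K[X]) (κ : ℕ) :
    ∃ S : Finset (FinitePlace K), ∀ v ∉ S, ∀ m, v (ξ m) ≤ 1 ∧ v (Q.eval (ξ m) / ξ m ^ κ) ≤ 1 := by
  classical
  obtain ⟨-, S, -, -, h, -⟩ := exists_mod ({a, a⁻¹, ξ 0, (ξ 0)⁻¹} ∪ Q.coeffs)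
  set A := Algebra.adjoin ℤ (({a, a⁻¹, ξ 0, (ξ 0)⁻¹} ∪ Q.coeffs : Finset K) : Set K)
  have m1 : ∀ m, ξ m ∈ A := fun m => hξ m ▸
    mul_mem (pow_mem (Algebra.subset_adjoin (by simp)) _) (Algebra.subset_adjoin (by simp))
  have m2 : ∀ m, (ξ m)⁻¹ ∈ A := fun m => by
    rw [hξ, mul_inv, ← inv_pow]
    exact mul_mem (pow_mem (Algebra.subset_adjoin (by simp)) _) (Algebra.subset_adjoin (by simp))
  refine ⟨S, fun v hv m => ⟨h v hv _ (m1 m), h v hv _ ?_⟩⟩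
  rw [div_eq_mul_inv, ← inv_pow, eval_eq_sum, Polynomial.sum]
  exact mul_mem (sum_mem fun i hi => mul_mem (Algebra.subset_adjoin (Finset.mem_union_right _
    (coeff_mem_coeffs (mem_support_iff.1 hi)))) (pow_mem (m1 m) _)) (pow_mem (m2 m) _)

theorem sum_bd {ι : Type*} (T : Finset ι) (C : ι → ℝ) : ∃ B, 1 ≤ B ∧ ∀ v ∈ T, C v ≤ B :=
  have s : 0 ≤ ∑ v ∈ T, |C v| := Finset.sum_nonneg fun _ _ => abs_nonneg _
  ⟨1 + ∑ v ∈ T, |C v|, by linarith, fun v hv => by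
    linarith [le_abs_self (C v), Finset.single_le_sum (f := fun v => |C v|)
      (fun _ _ => abs_nonneg _) hv]⟩

theorem blocks [NumberField K] (hd : 2 ≤ d) (pd : p.natDegree = d)
    (rec : ∀ m, y (m + N + 1) = p.evalEval (ξ m) (y (m + N)) + ∑ j, δ j * y (m + j))
    {a : K} (a0 : a ≠ 0) (a1 : ∀ j, 1 ≤ j → a ^ j ≠ 1) (hξ : ∀ m, ξ m = a ^ m * ξ 0) (ξ0 : ξ 0 ≠ 0)
    (hy : y ∈ GS K) {κ : ℕ} {c : K[X]} (hc : p.coeff d = X ^ κ * c) (c0 : c.coeff 0 ≠ 0)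
    {g : ℕ → K} {S : Finset (FinitePlace K)} (hS : ∀ v ∉ S, ∀ m, v (g m) ≤ 1)
    (b0 : ∀ v : AbsoluteValue K ℝ, Pl v → v a ≠ 1 → ∃ C, ∀ᶠ m : ℕ in atTop, v (g m) ≤ C)
    (b1 : ∀ v : AbsoluteValue K ℝ, Pl v → 1 < v a →
      ∃ C, ∀ᶠ m : ℕ in atTop, v (g m) ≤ C * v (ξ m)⁻¹ ^ min 1 c.natDegree)
    (b2 : ∀ v : AbsoluteValue K ℝ, v a = 1 → ∃ C, 0 ≤ C ∧ ∀ m (Z : ℝ), 1 ≤ Z → v (y (m + N)) ≤ Z →
      v (g m) ≤ C * Z ^ (d - 1)) :
    ∃ (J : Finset ℕ) (V : Finset K), ∀ᶠ m : ℕ in atTop, ∃ s ∈ J, g (m + s) ∈ V := by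
  classical
  obtain ⟨T, L, hT, hL⟩ := ht1 S
  obtain ⟨Λ, hΛ⟩ := hy
  have u : ∀ v : AbsoluteValue K ℝ, v a = 1 → ∀ m, v (ξ m) = v (ξ 0) := fun v h m => by
    rw [hξ, map_mul, map_pow, h, one_pow, one_mul]
  have u' : ∀ v : AbsoluteValue K ℝ, v a = 1 → ∀ m, v ((p.coeff d).eval (ξ m)) =
      v (ξ 0) ^ κ * v (c.eval (ξ m)) := fun v h m => by simp [hc, u v h]
  by_cases z : c.natDegree = 0
  · have : ∀ v ∈ T, ∃ C, ∀ᶠ m : ℕ in atTop, v (g m) ≤ C := fun v hv => by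
      by_cases h : v a = 1
      swap
      · exact b0 v (hT v hv) h
      obtain ⟨C, -, hC⟩ := b2 v h
      obtain ⟨B, hB⟩ := unit_bd v hd pd rec (fun m => (u v h m).le)
        (mul_pos (pow_pos (v.pos ξ0) κ) (v.pos c0)) (fun m => by
          rw [u' v h, eq_C_of_natDegree_eq_zero z]; simp) (A := Λ) (Λ := Λ) fun n => by
          rw [← pow_succ']; exact ((hT v hv).le_height _).trans (hΛ n)
      exact ⟨_, .of_forall fun m => hC m (max 1 B) (le_max_left _ _) (le_max_of_le_right (hB _))⟩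
    choose! C hC using this
    obtain ⟨B, B1, hB⟩ := sum_bd T C
    refine ⟨{0}, (finite_setOfPred_mulHeight₁_le (K := K) (B ^ L)).toFinset, ?_⟩
    filter_upwards [(eventually_all_finset T).2 hC] with m hm
    simpa using hL _ B B1 (fun v hv => (hm v hv).trans (hB v hv)) fun v hv => hS v hv m
  obtain ⟨v0, hv0, v1⟩ := ex_place (inv_ne_zero a0) fun j hj e => a1 j hj (by simpa using e)
  obtain ⟨C0, hC0⟩ := b1 v0 hv0 (by rwa [map_inv₀, inv_lt_one₀ (v0.pos a0)] at v1)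
  rw [min_eq_left (by omega)] at hC0
  obtain ⟨l, l1, hl⟩ : ∃ l : ℝ, 1 < l ∧ v0 a⁻¹ * l ^ ((d - 1) * L) < 1 := by
    have c : ContinuousAt (fun l : ℝ => v0 a⁻¹ * l ^ ((d - 1) * L)) 1 := by fun_prop
    have := c.eventually (gt_mem_nhds (a := 1) (by simpa using v1))
    exact ((this.filter_mono nhdsWithin_le_nhds).and self_mem_nhdsWithin
      (f := nhdsWithin 1 (Set.Ioi 1))).exists.imp fun ε h => ⟨h.2, h.1⟩
  obtain ⟨ℓ, hℓ⟩ : ∃ ℓ : ℕ, Λ ≤ l ^ 2 ^ ℓ := by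
    obtain ⟨ℓ, h⟩ := pow_unbounded_of_one_lt Λ l1
    exact ⟨ℓ, h.le.trans (pow_le_pow_right₀ l1.le Nat.lt_two_pow_self.le)⟩
  obtain ⟨J, hJ⟩ := eventually_atTop.1 (sep a0 a1 c0)
  obtain ⟨r, hr⟩ : ∃ r, r = ℓ * (N + 2) := ⟨_, rfl⟩
  have : ∀ v ∈ T, ∃ (C : ℝ) (E : ℕ → Prop), (∀ m j, J ≤ j → j ≤ T.card * (r + J) + r →
      ¬E m ∨ ¬E (m + j)) ∧ ∀ᶠ A : ℕ in atTop, ∀ Z : ℝ, 1 ≤ Z → (∀ s ≤ r, ¬E (A + s)) →
      (∀ j ≤ A + r + N, v (y j) ≤ Z ^ 2 ^ ℓ) → v (g (A + ℓ * (N + 1))) ≤ C * Z ^ (d - 1) := by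
    intro v hv
    by_cases h : v a = 1
    · obtain ⟨C, C1, hC⟩ := b2 v h
      obtain ⟨η, η0, hη⟩ := sep2 v hξ (fun m => (u v h m).le) hJ (T.card * (r + J) + r)
      obtain ⟨D, D1, hD⟩ := maxp v hd pd rec (fun m => (u v h m).le)
        (mul_pos (pow_pos (v.pos ξ0) κ) η0)
      refine ⟨C * D ^ (d - 1), fun m => ¬η ≤ v (c.eval (ξ m)), by simpa only [not_not] using hη,
        .of_forall fun A Z Z1 h1 h2 => ?_⟩
      rw [mul_assoc, ← mul_pow]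
      refine hC _ _ (one_le_mul_of_one_le_of_one_le D1 Z1) (hD ℓ A Z Z1 (fun s hs => ?_) (hr ▸ h2))
      rw [u' v h]
      exact mul_le_mul_of_nonneg_left (not_not.1 (h1 s (hr ▸ hs))) (by positivity)
    · obtain ⟨C, hC⟩ := b0 v (hT v hv) h
      refine ⟨C, fun _ => False, by simp, ((tendsto_add_atTop_nat (ℓ * (N + 1))).eventually
        hC).mono fun A hA Z Z1 _ _ => hA.trans ?_⟩
      exact le_mul_of_one_le_right ((v.nonneg _).trans hA) (one_le_pow₀ Z1)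
  choose! C E h1 h2 using this
  obtain ⟨B, B1, hB⟩ := sum_bd T C
  obtain ⟨m0, hm⟩ := eventually_atTop.1 (hC0.and ((eventually_all_finset T).2 h2))
  have lim := (tendsto_pow_atTop_nhds_zero_of_lt_one (mul_nonneg (v0.nonneg _) (by positivity))
    hl).const_mul (C0 * v0 (ξ 0)⁻¹ * (B * (l ^ (T.card * (r + J) + r + N + 1)) ^ (d - 1)) ^ L)
  rw [mul_zero] at lim
  refine ⟨(Finset.range (T.card + 1)).image fun i => i * (r + J) + ℓ * (N + 1), {0}, ?_⟩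
  filter_upwards [lim.eventually (gt_mem_nhds one_pos), eventually_ge_atTop m0] with m hm1 hm2
  obtain ⟨i, hi, h3⟩ : ∃ i ∈ Finset.range (T.card + 1), ∀ v ∈ T, ∀ s ≤ r,
      ¬E v (m + i * (r + J) + s) := by
    by_contra c
    push Not at c
    have : Nonempty (AbsoluteValue K ℝ) := ⟨v0⟩
    choose! f f1 s s1 s2 using c
    have w : ∀ i ∈ Finset.range (T.card + 1), ∀ j ∈ Finset.range (T.card + 1), i < j →
        f i ≠ f j := fun i hi j hj l e => by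
      obtain ⟨t, rfl⟩ := Nat.exists_eq_add_of_lt l
      have p1 := s1 i hi
      have p2 := s1 _ hj
      have p3 := s2 _ hj
      have p4 : (t + 1) * (r + J) ≤ T.card * (r + J) :=
        Nat.mul_le_mul_right _ (by have := Finset.mem_range.1 hj; omega)
      rw [← e, add_assoc i, add_mul] at p3
      rw [add_one_mul] at p3 p4
      refine (h1 _ (f1 i hi) (m + i * (r + J) + s i) (t * (r + J) + (r + J) + s (i + t + 1) - s i)
        (by omega) (by omega)).elim (fun q => q (s2 i hi)) fun q => q ?_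
      convert p3 using 1
      rw [← add_assoc i]
      omega
    obtain ⟨i, hi, j, hj, e1, e2⟩ := Finset.exists_ne_map_eq_of_card_lt_of_maps_to
      (s := Finset.range (T.card + 1)) (t := T) (by simp) (f := f) f1
    rcases lt_or_gt_of_ne e1 with l | l
    exacts [w i hi j hj l e2, w j hj i hi l e2.symm]
  refine ⟨_, Finset.mem_image_of_mem _ hi, Finset.mem_singleton.2 ?_⟩
  rw [← add_assoc]
  by_contra ne
  have p4 : i * (r + J) ≤ T.card * (r + J) :=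
    Nat.mul_le_mul_right _ (by have := Finset.mem_range.1 hi; omega)
  have Z1 : 1 ≤ l ^ (m + (T.card * (r + J) + r + N + 1)) := one_le_pow₀ l1.le
  have Λ1 : 1 ≤ Λ := by simpa using (one_le_mulHeight₁ _).trans (hΛ 0)
  have q1 := hL (g (m + i * (r + J) + ℓ * (N + 1))) _
    (one_le_mul_of_one_le_of_one_le B1 (one_le_pow₀ (n := d - 1) Z1)) (fun v hv =>
      ((hm _ (by omega)).2 v hv _ Z1 (h3 v hv) fun j hj => ((hT v hv).le_height _).trans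
        ((hΛ j).trans (by
          rw [pow_right_comm]
          exact (pow_le_pow_right₀ Λ1 (by omega)).trans
            (pow_le_pow_left₀ (by linarith) hℓ _)))).trans
        (mul_le_mul_of_nonneg_right (hB v hv) (by positivity))) fun v hv => hS v hv _
  have q2 := (hm (m + i * (r + J) + ℓ * (N + 1)) (by omega)).1
  have q3 := hv0.le_height (g (m + i * (r + J) + ℓ * (N + 1)))⁻¹
  rw [mulHeight₁_inv, map_inv₀] at q3
  have q4 := (inv_le_iff_one_le_mul₀' (v0.pos ne)).1 (q3.trans q1)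
  have C1 : 0 ≤ C0 := nonneg_of_mul_nonneg_left ((v0.nonneg _).trans q2) (pow_pos (v0.pos
    (inv_ne_zero (by rw [hξ]; exact mul_ne_zero (pow_ne_zero _ a0) ξ0))) _)
  rw [hξ, pow_one, mul_inv, ← inv_pow, map_mul, map_pow] at q2
  have q5 := q2.trans (mul_le_mul_of_nonneg_left (mul_le_mul_of_nonneg_right
    (pow_le_pow_of_le_one (m := m) (v0.nonneg _) v1.le (by omega)) (v0.nonneg _)) C1)
  refine ((q4.trans (mul_le_mul_of_nonneg_right q5 (by positivity))).trans_eq ?_).not_gt hm1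
  ring

end Pool.Agent.MP_c8dfda_nt.SL
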