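import Pool.Agent.MP_c8dfda_nt.tg.Skew
import Pool.Agent.MP_c8dfda_nt.sl.Filt

/-! Liouville inequality, nearest roots and the local counting step. -/

namespace Pool.Agent.MP_c8dfda_nt.SL

open NumberField Filter Height Topology Polynomial Pool.Agent.MP_c8dfda_nt.TG

variable {L : Type*} [Field L]

/-- Denominator and archimedean sizes at most `B`. -/
def Sz (y : L) (B : ℝ) : Prop :=
  (∃ D : ℕ, D ≠ 0 ∧ (D : ℝ) ≤ B ∧ IsIntegral ℤ ((D : L) * y)) ∧ ∀ w : InfinitePlace L, w y ≤ B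

theorem Sz.one_le {y : L} {B : ℝ} (h : Sz y B) : 1 ≤ B := by
  obtain ⟨⟨D, D0, DB, -⟩, -⟩ := h
  exact le_trans (by exact_mod_cast Nat.one_le_iff_ne_zero.2 D0) DB

theorem Sz.mono {y : L} {B B' : ℝ} (h : Sz y B) (l : B ≤ B') : Sz y B' :=
  ⟨h.1.imp fun _ p => ⟨p.1, p.2.1.trans l, p.2.2⟩, fun w => (h.2 w).trans l⟩

theorem Sz.height [NumberField L] {y : L} {B : ℝ} (h : Sz y B) :
    mulHeight₁ y ≤ (2 * B ^ 3) ^ Module.finrank ℚ L := by
  have B1 := h.one_le
  obtain ⟨⟨D, D0, DB, hD⟩, hy⟩ := h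
  have D0' : (D : L) ≠ 0 := by exact_mod_cast D0
  have h1 : mulHeight₁ ((D : L) * y) ≤ (B * B) ^ Module.finrank ℚ L := by
    have : ∏ᶠ v : FinitePlace L, max (v ((D : L) * y)) 1 = 1 :=
      finprod_eq_one_of_forall_eq_one fun v => max_eq_right (fin_int v hD)
    rw [NumberField.mulHeight₁_eq, this, mul_one, ← InfinitePlace.sum_mult_eq,
      ← Finset.prod_pow_eq_pow_sum]
    refine Finset.prod_le_prod (fun _ _ => by positivity) fun v _ =>
      pow_le_pow_left₀ (by positivity) (max_le ?_ (by nlinarith)) _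
    rw [map_mul, v.map_natCast]
    exact mul_le_mul DB (hy v) (apply_nonneg _ _) (by linarith)
  have h2 := mulHeight₁_mul_le ((D : L) * y) (D : L)⁻¹
  rw [mul_right_comm, mul_inv_cancel₀ D0', one_mul, mulHeight₁_inv] at h2
  refine h2.trans ((mul_le_mul h1 (height_nat D) (mulHeight₁_nonneg _) (by positivity)).trans ?_)
  rw [← mul_pow]
  have h3 := mul_nonneg (mul_self_nonneg B) (by linarith : 0 ≤ 2 * B - (D + 1))
  exact pow_le_pow_left₀ (by positivity) (by linarith) _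

theorem Sz.liou [NumberField L] {y : L} {B : ℝ} (h : Sz y B) (y0 : y ≠ 0)
    {v : AbsoluteValue L ℝ} (hv : Pl v) : 1 ≤ v y * (2 * B ^ 3) ^ Module.finrank ℚ L := by
  have := hv.le_height y⁻¹
  rw [mulHeight₁_inv, map_inv₀] at this
  exact (inv_le_iff_one_le_mul₀' (v.pos y0)).1 (this.trans h.height)

theorem sz_ext {K : Type*} [Field K] [NumberField K] [NumberField L] [Algebra K L] (x : K) :
    Sz (algebraMap K L x) (mulHeight₁ x) := by
  obtain ⟨D, D0, DB, hD⟩ := exists_nat_le_mulHeight₁ x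
  refine ⟨⟨D, D0, DB, ?_⟩, fun w => ?_⟩
  · simpa using hD.map (IsScalarTower.toAlgHom ℤ K L)
  · exact Pl.le_height (v := (w.comap (algebraMap K L)).1) (.inl ⟨_, rfl⟩) x

theorem sz_sum [NumberField L] {k d : ℕ} (c : (Fin k → Fin d) → L) (hc : ∀ e, IsIntegral ℤ (c e)) :
    ∃ A : ℝ, ∀ (y : Fin k → L) (B : ℝ), 1 ≤ B → (∀ j, Sz (y j) B) →
      Sz (∑ e, c e * ∏ j, y j ^ (e j : ℕ)) (A * B ^ (d * k)) := by
  have s0 : ∀ w : InfinitePlace L, 0 ≤ ∑ e, w (c e) := fun w =>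
    Finset.sum_nonneg fun _ _ => apply_nonneg _ _
  have s1 : 0 ≤ ∑ w : InfinitePlace L, ∑ e, w (c e) := Finset.sum_nonneg fun w _ => s0 w
  refine ⟨1 + ∑ w : InfinitePlace L, ∑ e, w (c e), fun y B B1 hy => ?_⟩
  choose D D0 DB hD using fun j => (hy j).1
  have p : (∏ _j : Fin k, B ^ d) = B ^ (d * k) := by simp [pow_mul]
  refine ⟨⟨∏ j, D j ^ d, Finset.prod_ne_zero_iff.2 fun j _ => pow_ne_zero _ (D0 j), ?_, ?_⟩,
    fun w => ?_⟩
  · refine le_trans ?_ (le_mul_of_one_le_left (by positivity) (le_add_of_nonneg_right s1))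
    push_cast
    rw [← p]
    exact Finset.prod_le_prod (fun _ _ => by positivity) fun j _ =>
      pow_le_pow_left₀ (by positivity) (DB j) _
  · rw [Finset.mul_sum]
    refine IsIntegral.sum _ fun e _ => ?_
    rw [mul_left_comm]
    push_cast
    rw [← Finset.prod_mul_distrib]
    refine (hc e).mul (IsIntegral.prod _ fun j _ => ?_)
    rw [show (D j : L) ^ d * y j ^ (e j : ℕ) = (D j : L) ^ (d - e j) * (D j * y j) ^ (e j : ℕ) by
      rw [mul_pow, ← mul_assoc, ← pow_add, Nat.sub_add_cancel (e j).2.le]]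
    exact ((isIntegral_natCast _).pow _).mul ((hD j).pow _)
  · refine (w.1.sum_le _ _).trans (le_trans (Finset.sum_le_sum
      (g := fun e => w (c e) * B ^ (d * k)) fun e _ => ?_) ?_)
    · rw [map_mul, map_prod, ← p]
      refine mul_le_mul_of_nonneg_left (Finset.prod_le_prod (fun _ _ => w.1.nonneg _)
        fun j _ => ?_) (w.1.nonneg _)
      rw [map_pow]
      exact (pow_le_pow_left₀ (w.1.nonneg _) ((hy j).2 w) _).trans
        (pow_le_pow_right₀ B1 (e j).2.le)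
    · rw [← Finset.sum_mul]
      exact mul_le_mul_of_nonneg_right ((Finset.single_le_sum
        (f := fun w : InfinitePlace L => ∑ e, w (c e)) (fun w _ => s0 w)
        (Finset.mem_univ w)).trans (le_add_of_nonneg_left zero_le_one)) (by positivity)

theorem near (v : AbsoluteValue L ℝ) {q : L[X]} (hq : q.Splits) (q0 : q.natDegree ≠ 0) (x : L) :
    ∃ ζ ∈ q.roots, v q.leadingCoeff * v (x - ζ) ^ q.natDegree ≤ v (q.eval x) := by
  classical
  obtain ⟨ζ, h1, h2⟩ := Finset.exists_min_image q.roots.toFinset (fun ζ => v (x - ζ))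
    (Multiset.toFinset_nonempty.2 (hq.roots_ne_zero q0))
  refine ⟨ζ, Multiset.mem_toFinset.1 h1, ?_⟩
  rw [hq.eval_eq_prod_roots, map_mul, hq.natDegree_eq_card_roots, map_multiset_prod,
    Multiset.map_map]
  refine mul_le_mul_of_nonneg_left ?_ (v.nonneg _)
  rw [← Multiset.prod_replicate, ← Multiset.map_const']
  exact Multiset.prod_map_le_prod_map₀ _ _ (fun _ _ => v.nonneg _) fun a ha =>
    h2 a (Multiset.mem_toFinset.2 ha)

theorem root_red {A Γ : Type*} [CommRing A] [Algebra L A] [Fintype Γ] {g : Γ → A} {ω : Γ → ℕ}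
    {q : L[X]} (q0 : q ≠ 0) (ζ : L) {U : A} (hU : U - algebraMap L A ζ ∈ Fil L g ω 1)
    (h : aeval U q ∈ Fil L g ω (q.rootMultiplicity ζ + 1)) :
    (U - algebraMap L A ζ) ^ q.rootMultiplicity ζ ∈ Fil L g ω (q.rootMultiplicity ζ + 1) := by
  obtain ⟨q1, h1, h2⟩ := exists_eq_pow_rootMultiplicity_mul_and_not_dvd q q0 ζ
  obtain ⟨q2, h3⟩ := X_sub_C_dvd_sub_C_eval (p := q1) (a := ζ)
  have c0 : q1.eval ζ ≠ 0 := fun z => h2 (dvd_iff_isRoot.2 z)
  have U0 : U ∈ Fil L g ω 0 := by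
    simpa using add_mem (fil_anti zero_le_one hU) (fil_const (g := g) (ω := ω) ζ)
  generalize q.rootMultiplicity ζ = μ at h h1 ⊢
  rw [h1, eq_add_of_sub_eq h3] at h
  simp only [map_mul, map_pow, map_add, map_sub, aeval_X, aeval_C] at h
  have h4 := sub_mem h (fil_mul0 (by simpa using fil_pow hU (μ + 1)) (fil_aeval U0 q2))
  have h5 := Submodule.smul_mem _ (q1.eval ζ)⁻¹ h4
  convert h5 using 1
  rw [Algebra.smul_def]
  have : algebraMap L A (q1.eval ζ)⁻¹ * algebraMap L A (q1.eval ζ) = 1 := by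
    rw [← map_mul, inv_mul_cancel₀ c0, map_one]
  linear_combination (-(U - algebraMap L A ζ) ^ μ) * this

end Pool.Agent.MP_c8dfda_nt.SL
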