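import Pool.Agent.MP_c8dfda_nt.sl.Runge
import Pool.Agent.MP_c8dfda_nt.sl.Esc

/-! Sharp local bounds at an end of the base. -/

namespace Pool.Agent.MP_c8dfda_nt.SL

open NumberField Filter Height Topology Polynomial Pool.Agent.MP_c8dfda_nt.TG

variable {L : Type*} [Field L]

theorem loc' (v : AbsoluteValue L ℝ) {N d m0 : ℕ} (hd : 2 ≤ d) (z g : ℕ → L)
    (e : ℕ → ℕ → L) (δ : Fin N → ℕ → L)
    (hz : ∀ m, m0 ≤ m → z (m + N) ^ d = g m * z (m + N + 1) +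
      ∑ i ∈ Finset.range d, e i m * z (m + N) ^ i + ∑ j, δ j m * z (m + j))
    (σ : ℕ → ℝ) (σ0 : ∀ n, 0 < σ n)
    (hg : ∃ C, ∀ m, m0 ≤ m → v (g m) * σ (m + N + 1) ≤ C * σ (m + N) ^ d)
    (he : ∀ i < d, ∃ C, ∀ m, m0 ≤ m → v (e i m) * σ (m + N) ^ i ≤ C * σ (m + N) ^ d)
    (hδ : ∀ j, ∃ C, ∀ m, m0 ≤ m → v (δ j m) * σ (m + j) ≤ C * σ (m + N) ^ d) :
    (∃ B, ∀ n, v (z n) ≤ B * σ n) ∨
      ∃ c : ℝ, 0 < c ∧ ∀ᶠ n : ℕ in atTop, c * d ^ n ≤ Real.log (v (z n) / σ n) := by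
  obtain ⟨a, ha⟩ := hg
  choose! b hb using he
  choose c hc using hδ
  have s1 : 0 ≤ ∑ i ∈ Finset.range d, |b i| := Finset.sum_nonneg fun _ _ => abs_nonneg _
  have s2 : 0 ≤ ∑ i, |c i| := Finset.sum_nonneg fun _ _ => abs_nonneg _
  have p : ∀ m, 0 ≤ σ (m + N) ^ d := fun m => (pow_pos (σ0 _) _).le
  refine loc v hd z g e δ hz σ σ0 (C := |a| + ∑ i ∈ Finset.range d, |b i| + ∑ i, |c i|)
    (fun m hm => (ha m hm).trans (mul_le_mul_of_nonneg_right ?_ (p m)))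
    (fun i hi m hm => (hb i hi m hm).trans (mul_le_mul_of_nonneg_right ?_ (p m)))
    fun j m hm => (hc j m hm).trans (mul_le_mul_of_nonneg_right ?_ (p m))
  · linarith [le_abs_self a]
  · linarith [le_abs_self (b i), abs_nonneg a, Finset.single_le_sum (f := fun i => |b i|)
      (fun _ _ => abs_nonneg _) (Finset.mem_range.2 hi)]
  · linarith [le_abs_self (c j), abs_nonneg a, Finset.single_le_sum (f := fun i => |c i|)
      (fun _ _ => abs_nonneg _) (Finset.mem_univ j)]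

theorem ev_bd (v : AbsoluteValue L ℝ) {t : ℕ → L} {T : ℝ} (h : ∀ n, v (t n) ≤ T) (p : L[X]) :
    ∃ D, 0 ≤ D ∧ ∀ n, v (p.eval (t n)) ≤ D := by
  have T0 := (v.nonneg _).trans (h 0)
  refine ⟨∑ i ∈ Finset.range (p.natDegree + 1), v (p.coeff i) * T ^ i, by positivity, fun n => ?_⟩
  rw [eval_eq_sum_range]
  refine (v.sum_le _ _).trans (Finset.sum_le_sum fun i _ => ?_)
  rw [map_mul, map_pow]
  exact mul_le_mul_of_nonneg_left (pow_le_pow_left₀ (v.nonneg _) (h n) _) (v.nonneg _)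

theorem geo_le (v : AbsoluteValue L ℝ) {τ : ℕ → L} {ω : L} (hτ : ∀ m, τ m = ω ^ m * τ 0)
    (h : v ω ≤ 1) (n : ℕ) : v (τ n) ≤ v (τ 0) := by
  rw [hτ, map_mul, map_pow]
  exact mul_le_of_le_one_left (v.nonneg _) (pow_le_one₀ (v.nonneg _) h)

theorem ev_divX (D : L[X]) (x : L) : D.eval x - x * D.divX.eval x = D.coeff 0 := by
  have := congrArg (eval x) (X_mul_divX_add D)
  rw [eval_add, eval_mul, eval_X, eval_C] at this
  linear_combination -this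

theorem ev_low (v : AbsoluteValue L ℝ) {τ : ℕ → L} {ω : L} (hτ : ∀ m, τ m = ω ^ m * τ 0)
    (h : v ω < 1) {D : L[X]} (D0 : D.coeff 0 ≠ 0) :
    ∀ᶠ n : ℕ in atTop, v (D.coeff 0) / 2 ≤ v (D.eval (τ n)) := by
  obtain ⟨B, -, hB⟩ := ev_bd v (geo_le v hτ h.le) D.divX
  have := (tendsto_pow_atTop_nhds_zero_of_lt_one (v.nonneg _) h).mul_const (v (τ 0) * B)
  rw [zero_mul] at this
  filter_upwards [this.eventually (gt_mem_nhds (half_pos (v.pos D0)))] with n hn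
  have h1 := v.sub_le_add (D.eval (τ n)) (τ n * D.divX.eval (τ n))
  rw [ev_divX, map_mul] at h1
  have h3 := mul_le_mul_of_nonneg_left (hB n) (v.nonneg (τ n))
  nth_rw 3 [hτ] at h3
  rw [map_mul, map_pow] at h3
  linarith

theorem θ_le {a ρ : ℝ} (a0 : 0 < a) (a1 : a ≤ 1) {k o : ℤ} {d i : ℕ}
    (h : k - ρ * d ≤ o - ρ * i) : a ^ o * (a ^ (-ρ)) ^ i ≤ a ^ k * (a ^ (-ρ)) ^ d := by
  rw [← Real.rpow_intCast, ← Real.rpow_intCast, ← Real.rpow_mul_natCast a0.le,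
    ← Real.rpow_mul_natCast a0.le, ← Real.rpow_add a0, ← Real.rpow_add a0]
  exact Real.rpow_le_rpow_of_exponent_ge a0 a1 (by linarith)

theorem loc2 (v : AbsoluteValue L ℝ) {N d : ℕ} (hd : 2 ≤ d) {τ w : ℕ → L} {ω : L} (ω0 : ω ≠ 0)
    (ω1 : v ω < 1) (hτ : ∀ m, τ m = ω ^ m * τ 0) (τ0 : τ 0 ≠ 0) {k : ℤ} {D Q : L[X]} {o : ℕ → ℤ}
    {F : ℕ → L[X]} {δ : Fin N → L} (D0 : D.coeff 0 ≠ 0)
    (rel : ∀ m, τ m ^ k * D.eval (τ m) * w (m + N) ^ d + ∑ i ∈ Finset.range (d - 1),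
      τ m ^ o i * (F i).eval (τ m) * w (m + N) ^ i =
      Q.eval (τ m) * (w (m + N + 1) - ∑ j, δ j * w (m + j)))
    {ρ : ℝ} (h1 : k - ρ * d ≤ -ρ) (h2 : ∀ i < d - 1, F i ≠ 0 → k - ρ * d ≤ o i - ρ * i)
    {A Λ : ℝ} (hw : ∀ n, v (w n) ≤ A * Λ ^ n) : ∃ B, ∀ n, v (w n) ≤ B * (v ω ^ (-ρ)) ^ n := by
  have a0 := v.pos ω0
  have θ0 : 0 < v ω ^ (-ρ) := Real.rpow_pos_of_pos a0 _
  obtain ⟨m0, hm⟩ := eventually_atTop.1 (ev_low v hτ ω1 D0)
  have d0 := half_pos (v.pos D0)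
  have τn : ∀ m, τ m ≠ 0 := fun m => by rw [hτ]; exact mul_ne_zero (pow_ne_zero _ ω0) τ0
  have aux : ∀ (P : L[X]) (o : ℤ) (i : ℕ) (s s' : ℝ), 0 ≤ s → 0 < s' → k - ρ * d ≤ o - ρ * i →
      ∃ C, ∀ m, m0 ≤ m → v (τ m ^ o * P.eval (τ m) / (τ m ^ k * D.eval (τ m))) *
        (((v ω ^ (-ρ)) ^ m) ^ i * s) ≤ C * (((v ω ^ (-ρ)) ^ m) ^ d * s') := by
    intro P o i s s' s0 s1 h
    obtain ⟨B, B0, hB⟩ := ev_bd v (geo_le v hτ ω1.le) P
    have t0 := v.pos τ0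
    refine ⟨v (τ 0) ^ o * B * s / (v (τ 0) ^ k * (v (D.coeff 0) / 2) * s'), fun m hm' => ?_⟩
    have e : ∀ j : ℤ, v (τ m ^ j) = (v ω ^ j) ^ m * v (τ 0) ^ j := fun j => by
      rw [hτ, map_zpow₀, map_mul, map_pow, mul_zpow, ← zpow_natCast, ← zpow_natCast, ← zpow_mul,
        ← zpow_mul, mul_comm j]
    have h3 := pow_le_pow_left₀ (by positivity) (θ_le a0 ω1.le h) m
    rw [mul_pow, mul_pow, pow_right_comm, pow_right_comm _ d] at h3
    rw [map_div₀, map_mul, map_mul, e, e]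
    have h4 := hm m hm'
    have h5 := hB m
    have Z0 := pow_pos θ0 m
    generalize (v ω ^ (-ρ)) ^ m = Z at h3 Z0 ⊢
    calc _ ≤ (v ω ^ o) ^ m * v (τ 0) ^ o * B / ((v ω ^ k) ^ m * v (τ 0) ^ k *
          (v (D.coeff 0) / 2)) * (Z ^ i * s) := by gcongr
      _ = v (τ 0) ^ o * B * s / (v (τ 0) ^ k * (v (D.coeff 0) / 2) * (v ω ^ k) ^ m) *
          ((v ω ^ o) ^ m * Z ^ i) := by ring
      _ ≤ _ := (mul_le_mul_of_nonneg_left h3 (by positivity)).trans_eq (by field_simp)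
  refine (loc' v (m0 := m0) hd w (fun m => τ m ^ (0 : ℤ) * Q.eval (τ m) / (τ m ^ k * D.eval (τ m)))
    (fun i m => τ m ^ o i * (if i < d - 1 then -F i else 0).eval (τ m) / (τ m ^ k * D.eval (τ m)))
    (fun j m => τ m ^ (0 : ℤ) * (-(C (δ j) * Q)).eval (τ m) / (τ m ^ k * D.eval (τ m)))
    (fun m hm' => ?_) (fun n => (v ω ^ (-ρ)) ^ n) (fun n => pow_pos θ0 n) ?_ (fun i hi => ?_)
    fun j => ?_).resolve_right (no_esc (A := A) (Λ := Λ / v ω ^ (-ρ)) hd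
      (fun n => div_nonneg (v.nonneg _) (pow_pos θ0 n).le) fun n => ?_)
  · have D1 : D.eval (τ m) ≠ 0 := fun z => by
      have := hm m hm'
      rw [z, map_zero] at this
      linarith
    have u : τ m ^ k * D.eval (τ m) ≠ 0 := mul_ne_zero (zpow_ne_zero _ (τn m)) D1
    obtain ⟨e, rfl⟩ : ∃ e, d = e + 1 := ⟨d - 1, by omega⟩
    simp only [div_mul_eq_mul_div, ← Finset.sum_div, ← add_div]
    rw [eq_div_iff u, mul_comm, eq_sub_of_add_eq (rel m), Finset.sum_range_succ]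
    simp only [Nat.add_sub_cancel, lt_irrefl, if_false, eval_zero, mul_zero, zero_mul, add_zero,
      zpow_zero, one_mul, eval_neg, eval_mul, eval_C, Finset.mul_sum, sub_eq_add_neg,
      ← Finset.sum_neg_distrib, mul_add]
    rw [add_right_comm]
    refine congrArg₂ _ (congrArg₂ _ rfl (Finset.sum_congr rfl fun i hi => ?_))
      (Finset.sum_congr rfl fun i _ => by ring)
    rw [if_pos (Finset.mem_range.1 hi), eval_neg]
    ring
  · simpa only [pow_add, mul_pow, pow_one, mul_assoc] using aux Q 0 1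
      ((v ω ^ (-ρ)) ^ N * v ω ^ (-ρ)) (((v ω ^ (-ρ)) ^ N) ^ d) (by positivity) (by positivity)
      (by simpa using h1)
  · by_cases c : i < d - 1 ∧ F i ≠ 0
    · simpa only [pow_add, mul_pow] using aux _ (o i) i (((v ω ^ (-ρ)) ^ N) ^ i)
        (((v ω ^ (-ρ)) ^ N) ^ d) (by positivity) (by positivity) (h2 i c.1 c.2)
    · refine ⟨0, fun m _ => ?_⟩
      by_cases c' : i < d - 1
      · simp [not_not.1 fun z => c ⟨c', z⟩]
      · simp [c']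
  · simpa only [pow_add, mul_pow, pow_one] using aux _ 0 1
      ((v ω ^ (-ρ)) ^ (j : ℕ)) (((v ω ^ (-ρ)) ^ N) ^ d) (by positivity) (by positivity)
      (by simpa using h1)
  · rw [div_pow, ← mul_div_assoc]
    exact div_le_div_of_nonneg_right (hw n) (pow_pos θ0 n).le

end Pool.Agent.MP_c8dfda_nt.SL
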