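import Pool.Agent.MP_c8dfda_nt.sl.Up

set_option maxHeartbeats 400000

/-! Shift-like skew products over an affine map of the line. -/

namespace Pool.Agent.MP_c8dfda_nt.SL

open NumberField Filter Function Height Topology MvPolynomial Pool.Agent.MP_c8dfda_nt.TG

variable {K : Type*} [Field K] {N d : ℕ} {a b : K} {p : Polynomial (Polynomial K)} {δ : Fin N → K}
  {f : Option (Fin (N + 1)) → MvPolynomial (Option (Fin (N + 1))) K}

theorem inj_of_inf {α : Type*} {x : ℕ → α} {g : α → α} (h : ∀ n, x (n + 1) = g (x n))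
    (hi : (Set.range x).Infinite) : Injective x := by
  refine .of_lt_imp_ne fun i j l e => hi (((Set.finite_Iio j).image x).subset ?_)
  have per : ∀ t, x (i + t) = x (j + t) := fun t => by
    induction t with
    | zero => exact e
    | succ t ih => rw [← add_assoc, ← add_assoc, h, h, ih]
  rintro _ ⟨n, rfl⟩
  induction n using Nat.strong_induction_on with
  | _ n ih =>
    by_cases c : n < j
    · exact ⟨n, c, rfl⟩
    · obtain ⟨t, rfl⟩ := Nat.exists_eq_add_of_le (not_lt.1 c)
      rw [← per]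
      exact ih _ (by omega)

theorem dense_ev {σ : Type*} [Nonempty σ] {z : ℕ → σ → K}
    (hP : ∀ G : MvPolynomial σ K, (∀ n, eval (z n) G = 0) → G = 0) (G : MvPolynomial σ K)
    (h : ∀ᶠ n : ℕ in atTop, eval (z n) G = 0) : G = 0 := by
  obtain ⟨M, hM⟩ := eventually_atTop.1 h
  obtain ⟨i⟩ : Nonempty σ := inferInstance
  refine (mul_eq_zero.1 (hP (G * ∏ n ∈ Finset.range M, (X i - C (z n i))) fun n => ?_)).resolve_right
    (Finset.prod_ne_zero_iff.2 fun n _ => X_sub_ne i _)
  rw [map_mul, map_prod]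
  by_cases c : n < M
  · exact mul_eq_zero_of_right _ (Finset.prod_eq_zero (Finset.mem_range.2 c) (by simp))
  · exact mul_eq_zero_of_left (hM n (not_lt.1 c)) _

theorem hom_aa {A B : Type*} [CommRing A] [CommRing B] [Algebra K A] [Algebra K B] (φ : A →ₐ[K] B)
    (x y : A) : φ (Polynomial.aevalAeval x y p) = Polynomial.aevalAeval (φ x) (φ y) p := by
  have : φ.comp (Polynomial.aevalAeval x y) = Polynomial.aevalAeval (φ x) (φ y) := by
    ext <;> simp
  exact DFunLike.congr_fun this p

section
variable {A : Type*} [CommRing A] [Algebra K A] {z : ℕ → Option (Fin (N + 1)) → A}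

theorem sh_of (h1 : ∀ i : Fin N, f (some i.castSucc) = X (some i.succ))
    (hz : ∀ n i, z (n + 1) i = aeval (z n) (f i)) (i : Fin (N + 1)) :
    ∀ n, z n (some i) = z (n + i) (some 0) := by
  induction i using Fin.induction with
  | zero => exact fun n => rfl
  | succ i ih =>
    intro n
    have := hz n (some i.castSucc)
    rw [h1, aeval_X, ih] at this
    rw [← this, Fin.val_succ, Fin.val_castSucc, add_right_comm, add_assoc]

theorem rec_of (h1 : ∀ i : Fin N, f (some i.castSucc) = X (some i.succ))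
    (h2 : f (some (Fin.last N)) = Polynomial.aevalAeval (X none) (X (some (Fin.last N))) p +
      ∑ i : Fin N, C (δ i) * X (some i.castSucc))
    (hz : ∀ n i, z (n + 1) i = aeval (z n) (f i)) (m : ℕ) :
    z (m + N + 1) (some 0) = Polynomial.aevalAeval (z m none) (z (m + N) (some 0)) p +
      ∑ j, algebraMap K A (δ j) * z (m + j) (some 0) := by
  have := hz m (some (Fin.last N))
  rw [h2, map_add, hom_aa, map_sum, sh_of h1 hz] at this
  simp only [map_mul, aeval_X, aeval_C, sh_of h1 hz _ m] at this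
  rw [add_right_comm]
  exact this

end

theorem aa_comp (x : K) (w : Polynomial K) (p : Polynomial (Polynomial K)) :
    Polynomial.aevalAeval (Polynomial.C x) w p = (p.map (Polynomial.evalRingHom x)).comp w := by
  induction p using Polynomial.induction_on' with
  | add p q hp hq => rw [map_add, Polynomial.map_add, Polynomial.add_comp, hp, hq]
  | monomial n a => simp [← Polynomial.C_mul_X_pow_eq_monomial, aeval_C_eq_C_eval]

theorem deg_rec (hd : 2 ≤ d) (pd : p.natDegree = d) {x : ℕ → K} {y : ℕ → Polynomial K}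
    (hc : ∀ m, (p.coeff d).eval (x m) ≠ 0)
    (rec : ∀ m, y (m + N + 1) = Polynomial.aevalAeval (Polynomial.C (x m)) (y (m + N)) p +
      ∑ j, algebraMap K _ (δ j) * y (m + j))
    (y0 : ∀ i < N, y i = 0) (y1 : y N = Polynomial.X) (j : ℕ) : (y (j + N)).natDegree = d ^ j := by
  have key : ∀ j, (y (j + N)).natDegree = d ^ j ∧ ∀ i < j + N, (y i).natDegree ≤ d ^ j := by
    intro j
    induction j with
    | zero => exact ⟨by simp [y1], fun i hi => by simp [y0 i (by omega)]⟩
    | succ j ih =>
      have l : d ^ j < d ^ (j + 1) := Nat.pow_lt_pow_right hd j.lt_succ_self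
      have e1 : (Polynomial.aevalAeval (Polynomial.C (x j)) (y (j + N)) p).natDegree =
          d ^ (j + 1) := by
        rw [aa_comp, Polynomial.natDegree_comp, ih.1, Polynomial.natDegree_map_of_leadingCoeff_ne_zero _
          (by rw [Polynomial.leadingCoeff, pd]; exact hc j), pd, pow_succ']
      refine ⟨?_, fun i hi => le_trans ?_ l.le⟩
      · rw [add_right_comm, rec, Polynomial.natDegree_add_eq_left_of_natDegree_lt, e1]
        rw [e1]
        refine lt_of_le_of_lt (Polynomial.natDegree_sum_le_of_forall_le _ _ fun i _ => ?_) l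
        exact (Polynomial.natDegree_C_mul_le _ _).trans (ih.2 _ (by omega))
      · rcases (Nat.lt_succ_iff.1 (by omega : i < j + N + 1)).eq_or_lt with rfl | h
        exacts [ih.1.le, ih.2 i h]
  exact (key j).1

theorem hf_of (hd : 2 ≤ d) (pd : p.natDegree = d)
    (h1 : ∀ i : Fin N, f (some i.castSucc) = X (some i.succ))
    (h2 : f (some (Fin.last N)) = Polynomial.aevalAeval (X none) (X (some (Fin.last N))) p +
      ∑ i : Fin N, C (δ i) * X (some i.castSucc)) (i : Fin (N + 1)) :
    (optionEquivRight K _ (f (some i))).totalDegree ≤ d := by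
  induction i using Fin.lastCases with
  | cast i => rw [h1, optionEquivRight_X_some, totalDegree_X]; omega
  | last =>
    rw [h2, map_add, map_sum]
    refine (totalDegree_add _ _).trans (max_le ?_ (totalDegree_finsetSum_le fun i _ => ?_))
    · rw [p.as_sum_range_C_mul_X_pow, map_sum, map_sum]
      refine totalDegree_finsetSum_le fun i hi => ?_
      have := Finset.mem_range.1 hi
      have e : Polynomial.aeval (C Polynomial.X : MvPolynomial (Fin (N + 1)) (Polynomial K))
          (p.coeff i) = C (p.coeff i) := by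
        simpa using Polynomial.aeval_algHom_apply (IsScalarTower.toAlgHom K (Polynomial K)
          (MvPolynomial (Fin (N + 1)) (Polynomial K))) Polynomial.X (p.coeff i)
      rw [map_mul, map_pow, Polynomial.aevalAeval_C, Polynomial.aevalAeval_Y, map_mul, map_pow,
        optionEquivRight_X_some, ← Polynomial.aeval_algHom_apply, optionEquivRight_X_none,
        e]
      exact (totalDegree_mul _ _).trans (by simp; omega)
    · rw [map_mul, optionEquivRight_C, optionEquivRight_X_some]
      exact (totalDegree_mul _ _).trans (by simp; omega)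

theorem slow_or (v : AbsoluteValue K ℝ) (hd : 2 ≤ d) (pd : p.natDegree = d) {x y : ℕ → K}
    (rec : ∀ m, y (m + N + 1) = p.evalEval (x m) (y (m + N)) + ∑ j, δ j * y (m + j)) {m0 : ℕ}
    (hc : ∀ m, m0 ≤ m → (p.coeff d).eval (x m) ≠ 0) {Λ : ℝ} (Λ1 : 1 ≤ Λ)
    (h1 : ∃ A, ∀ m, v ((p.coeff d).eval (x m))⁻¹ ≤ A * Λ ^ m)
    (h2 : ∀ i < d, ∃ A, ∀ m, v ((p.coeff i).eval (x m)) ≤ A * Λ ^ m) :
    (∃ B, ∀ n, v (y n) ≤ B * (Λ ^ 2) ^ n) ∨
      ∃ c : ℝ, 0 < c ∧ ∀ᶠ n : ℕ in atTop, c * d ^ n ≤ Real.log (max 1 (v (y n))) := by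
  obtain ⟨A, hA⟩ := h1
  have A0 : 0 ≤ A := by simpa using (v.nonneg _).trans (hA 0)
  have e : ∀ i j : ℕ, i ≤ j → Λ ^ i ≤ Λ ^ j := fun i j => pow_le_pow_right₀ Λ1
  refine (loc' v (m0 := m0) hd y _ _ _ (fun m hm => monic_rel pd rec m (hc m hm))
    (fun n => (Λ ^ 2) ^ n) (fun n => by positivity) ⟨A * Λ ^ 2, fun m _ => ?_⟩ (fun i hi => ?_)
    fun j => ⟨v (δ j) * A, fun m _ => ?_⟩).imp_right fun ⟨c, c0, h⟩ => ⟨c, c0, h.mono fun n hn =>
      hn.trans ?_⟩
  · refine (mul_le_mul_of_nonneg_right (hA m) (by positivity)).trans ?_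
    simp only [mul_assoc, ← pow_mul, ← pow_add]
    exact mul_le_mul_of_nonneg_left (e _ _ (by nlinarith)) A0
  · obtain ⟨B, hB⟩ := h2 i hi
    have B0 : 0 ≤ B := by simpa using (v.nonneg _).trans (hB 0)
    refine ⟨B * A, fun m _ => ?_⟩
    rw [map_mul, map_neg_eq_map]
    refine (mul_le_mul_of_nonneg_right (mul_le_mul (hB m) (hA m) (v.nonneg _) (by positivity))
      (by positivity)).trans ?_
    rw [mul_mul_mul_comm]
    simp only [mul_assoc (B * A), ← pow_mul, ← pow_add]
    exact mul_le_mul_of_nonneg_left (e _ _ (by nlinarith)) (by positivity)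
  · rw [map_mul, map_neg_eq_map]
    refine (mul_le_mul_of_nonneg_right (mul_le_mul_of_nonneg_left (hA m) (v.nonneg _))
      (by positivity)).trans ?_
    rw [← mul_assoc]
    simp only [mul_assoc (v (δ j) * A), ← pow_mul, ← pow_add]
    exact mul_le_mul_of_nonneg_left (e _ _ (by nlinarith [j.2])) (mul_nonneg (v.nonneg _) A0)
  · rcases (v.nonneg (y n)).eq_or_lt with q | q
    · simp [← q]
    · exact Real.log_le_log (by positivity) ((div_le_self q.le (one_le_pow₀ (one_le_pow₀ Λ1))).trans
        (le_max_right _ _))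

theorem Sx.all {c : ℕ → ℝ} (h : Sx c) {ε : ℝ} (ε0 : 0 < ε) : ∃ A, ∀ m, c m ≤ A * Real.exp ε ^ m := by
  obtain ⟨M, hM⟩ := eventually_atTop.1 (h.2 ε ε0)
  have s : 0 ≤ ∑ m ∈ Finset.range M, c m := Finset.sum_nonneg fun m _ => h.1 m
  refine ⟨1 + ∑ m ∈ Finset.range M, c m, fun m => ?_⟩
  have e1 : 1 ≤ Real.exp ε ^ m := one_le_pow₀ (Real.one_le_exp ε0.le)
  by_cases q : m < M
  · have := Finset.single_le_sum (f := c) (fun m _ => h.1 m) (Finset.mem_range.2 q)
    nlinarith
  · have := hM m (not_lt.1 q)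
    rw [mul_comm, Real.exp_nat_mul] at this
    nlinarith

theorem escape2 [NumberField K] (hd : 2 ≤ d) (pd : p.natDegree = d)
    (h0 : f none = C a * X none + C b) (h1 : ∀ i : Fin N, f (some i.castSucc) = X (some i.succ))
    (h2 : f (some (Fin.last N)) = Polynomial.aevalAeval (X none) (X (some (Fin.last N))) p +
      ∑ i : Fin N, C (δ i) * X (some i.castSucc)) (P : Option (Fin (N + 1)) → K)
    (hP : ∀ G : MvPolynomial (Option (Fin (N + 1))) K, (∀ n, eval (orb f P n) G = 0) → G = 0) :
    ∃ v, Pl v ∧ ∃ c : ℝ, 0 < c ∧ ∀ᶠ n : ℕ in atTop, c * d ^ n ≤ Real.log (W v (orb f P n)) := by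
  classical
  by_contra z
  set x : ℕ → K := fun n => orb f P n none
  set y : ℕ → K := fun n => orb f P n (some 0)
  have hz : ∀ n i, orb f P (n + 1) i = aeval (orb f P n) (f i) := orb_succ f P
  have hr : ∀ m, y (m + N + 1) = p.evalEval (x m) (y (m + N)) + ∑ j, δ j * y (m + j) :=
    fun m => by
      have := rec_of h1 h2 hz m
      rwa [Polynomial.coe_aevalAeval_eq_evalEval] at this
  have xs : ∀ n, x (n + 1) = a * x n + b := x_succ h0 P
  have inj : Injective x := inj_of_inf (g := fun t => a * t + b) xs fun fin =>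
    Finset.prod_ne_zero_iff.2 (fun c _ => X_sub_ne none c) (hP (∏ c ∈ fin.toFinset, (X none - C c))
      fun n => by
        rw [map_prod]
        exact Finset.prod_eq_zero (fin.mem_toFinset.2 ⟨n, rfl⟩) (by simp [x]))
  have c0 : p.coeff d ≠ 0 := by
    rw [← pd]
    exact Polynomial.leadingCoeff_ne_zero.2 fun e => by rw [e, Polynomial.natDegree_zero] at pd; omega
  obtain ⟨m0, hc⟩ : ∃ m0, ∀ m, m0 ≤ m → (p.coeff d).eval (x m) ≠ 0 := by
    refine eventually_atTop.1 ?_
    rw [← Nat.cofinite_eq_atTop]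
    exact ((Polynomial.finite_setOfPred_isRoot c0).preimage inj.injOn).subset
      fun n hn => by simpa using hn
  have sl : ∀ Λ : ℝ, 1 ≤ Λ → (∀ i ≤ d, ∃ A, ∀ m, mulHeight₁ ((p.coeff i).eval (x m)) ≤ A * Λ ^ m) →
      ∀ v : AbsoluteValue K ℝ, Pl v → ∃ B, ∀ n, v (y n) ≤ B * (Λ ^ 2) ^ n := fun Λ Λ1 h v hv =>
    (slow_or v hd pd hr hc Λ1 ((h d le_rfl).imp fun A hA m => (hv.le_height _).trans
      ((mulHeight₁_inv _).trans_le (hA m))) fun i hi => (h i hi.le).imp fun A hA m =>
        (hv.le_height _).trans (hA m)).resolve_right fun ⟨c, c0, h⟩ => z ⟨v, hv, c, c0,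
      h.mono fun n hn => hn.trans (Real.log_le_log (by positivity)
        (max_le (one_le_W _ _) (le_W v (orb f P n) (some 0))))⟩
  by_cases a1 : a = 1
  · obtain ⟨s, xe⟩ : ∃ s : Polynomial K, ∀ n : ℕ, s.eval (n : K) = x n :=
      ⟨Polynomial.C b * Polynomial.X + Polynomial.C (x 0), fun n => by
        induction n with
        | zero => simp
        | succ n ih => rw [xs, ← ih, a1]; simp; ring⟩
    refine not_slow f P hP fun i v hv ε ε0 => ?_
    cases i with
    | none =>
      refine ((sx_poly s).2 ε ε0).mono fun n hn => (hv.le_height _).trans ?_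
      simpa only [xe] using hn
    | some i =>
      obtain ⟨B, hB⟩ := sl (Real.exp (ε / 4)) (Real.one_le_exp (by positivity)) (fun i _ => by
        simpa only [Polynomial.eval_comp, xe] using Sx.all (sx_poly ((p.coeff i).comp s))
          (by positivity : 0 < ε / 4)) v hv
      filter_upwards [(sx_const (abs_nonneg (B * (Real.exp (ε / 4) ^ 2) ^ (i : ℕ)))).2 (ε / 2)
        (by positivity)] with n hn
      rw [sh_of h1 hz]
      refine (hB _).trans ?_
      rw [pow_add, mul_comm _ (_ ^ (i : ℕ)), ← mul_assoc]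
      refine (mul_le_mul_of_nonneg_right ((le_abs_self _).trans hn) (by positivity)).trans_eq ?_
      rw [← pow_mul, ← Real.exp_nat_mul, ← Real.exp_add]
      push_cast
      ring_nf
  have hx : x ∈ GS K := gs_aff xs
  obtain ⟨S, hS, -⟩ := orb_gap f P
  have hy : y ∈ GS K := by
    obtain ⟨Λ, -, hΛ⟩ := gs_sum (Finset.range (d + 1)) fun i => sub_ev _ hx (p.coeff i)
    have h : ∀ i ≤ d, ∀ m, mulHeight₁ ((p.coeff i).eval (x m)) ≤ Λ * Λ ^ m := fun i hi m => by
      rw [← pow_succ']
      exact (Finset.single_le_sum (f := fun i => mulHeight₁ ((p.coeff i).eval (x m)))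
        (fun _ _ => mulHeight₁_nonneg _) (Finset.mem_range.2 (by omega))).trans (hΛ m)
    have Λ1 : 1 ≤ Λ := by simpa using (one_le_mulHeight₁ _).trans (h d le_rfl 0)
    obtain ⟨T, ℓ, hT, hℓ⟩ := ht1 S
    choose! B hB using sl Λ Λ1 fun i hi => ⟨Λ, h i hi⟩
    obtain ⟨D, D1, hD⟩ := sum_bd T B
    refine ⟨(D * Λ ^ 2) ^ ℓ, fun n => ?_⟩
    rw [pow_right_comm]
    refine hℓ _ _ (one_le_pow₀ (one_le_mul_of_one_le_of_one_le D1 (one_le_pow₀ Λ1)))
      (fun v hv => (hB v (hT v hv) n).trans ?_) fun v hv => hS v hv n _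
    rw [mul_pow]
    exact mul_le_mul ((hD v hv).trans (le_self_pow₀ D1 n.succ_ne_zero))
      (pow_le_pow_right₀ (one_le_pow₀ Λ1) n.le_succ) (by positivity) (by positivity)
  obtain ⟨t, ht⟩ : ∃ t, a * t + b = t := ⟨b / (1 - a), by
    have : 1 - a ≠ 0 := sub_ne_zero.2 (Ne.symm a1)
    field_simp
    ring⟩
  have hξ : ∀ m, x (m + m0) - t = a ^ m * (x (0 + m0) - t) := fun m => by
    induction m with
    | zero => simp
    | succ m ih => rw [add_right_comm, xs, pow_succ']; linear_combination a * ih + ht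
  have ne : ∀ i j, i ≠ j → x (i + m0) - t ≠ x (j + m0) - t := fun i j h e =>
    h (add_right_cancel (inj (sub_left_injective e)))
  let q := p.map (Polynomial.compRingHom (Polynomial.X + Polynomial.C t))
  have qc : ∀ i s, (q.coeff i).eval (s - t) = (p.coeff i).eval s := fun i s => by
    simp [q, Polynomial.eval_comp]
  have qd : q.natDegree = d := Polynomial.natDegree_eq_of_le_of_coeff_ne_zero
    (pd ▸ Polynomial.natDegree_map_le) fun e => hc m0 le_rfl (by rw [← qc, e, Polynomial.eval_zero])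
  obtain ⟨Φ, g1, g2⟩ := core (ξ := fun m => x (m + m0) - t) (y := fun m => y (m + m0)) (δ := δ)
    hd qd (fun m => by
      simp only [add_right_comm _ _ m0]
      rw [hr, ev_exp pd, ev_exp qd]
      simp only [qc]) (a := a) (fun e => ne 1 2 (by omega) (by rw [hξ 1, hξ 2, e]; simp))
    (fun j hj e => ne j 0 (by omega) (by rw [hξ j, e, one_mul])) hξ
    (fun e => ne 1 0 (by omega) (by rw [hξ 1, e, mul_zero]))
    (fun m => by rw [qc]; exact hc _ (by omega)) (S := S) (fun v hv n => hS v hv _ _)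
    (gs_shift hy m0)
  let Q : Option (Fin (N + 1)) → Polynomial K := fun i => i.elim (Polynomial.C (x m0))
    fun i => if i = Fin.last N then Polynomial.X else 0
  have hw : ∀ n i, aeval Q (itr f (n + 1) i) = aeval (fun j => aeval Q (itr f n j)) (f i) :=
    fun n i => by rw [itr, iterate_succ_apply', aeval_bind₁]
  have w0 : ∀ n, aeval Q (itr f n none) = Polynomial.C (x (n + m0)) := fun n => by
    induction n with
    | zero => simp [Q, itr]
    | succ n ih => rw [hw, h0, add_right_comm, xs]; simp [ih]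
  have w1 := sh_of (z := fun n i => aeval Q (itr f n i)) h1 hw
  have w2 := deg_rec hd pd (x := fun m => x (m + m0)) (y := fun m => aeval Q (itr f m (some 0)))
    (fun m => hc _ (by omega)) (fun m => by
      simpa only [w0] using rec_of (z := fun n i => aeval Q (itr f n i)) h1 h2 hw m)
    (fun i hi => by
      have := w1 ⟨i, by omega⟩ 0
      rw [zero_add] at this
      rw [← this]
      simp [Q, itr, Fin.ext_iff, hi.ne]) (by
      have := w1 (Fin.last N) 0
      rw [zero_add, Fin.val_last] at this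
      rw [← this]
      simp [Q, itr])
  have G0 := dense_ev hP (aeval (Sum.elim (fun j => itr f j none - C t)
    fun j => itr f j (some (Fin.last N))) Φ) (by
      rw [← map_add_atTop_eq_nat m0, eventually_map]
      refine g2.mono fun n hn => ?_
      rw [← coe_aeval_eq_eval, RingHom.coe_coe, ← AlgHom.comp_apply, comp_aeval, ← hn]
      congr 2
      funext j
      cases j with
      | inl j => simp [eval_itr, x, add_right_comm]
      | inr j => simp [eval_itr, y, sh_of h1 hz (Fin.last N), add_right_comm])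
  refine g1 (fun j => aeval Q (itr f j (some (Fin.last N)))) (fun j => by rw [w1]; exact w2 j) ?_
  have := congrArg (aeval Q) G0
  rw [map_zero, ← AlgHom.comp_apply, comp_aeval] at this
  rw [← this]
  congr 2
  funext j
  cases j with
  | inl j => simp [w0]
  | inr j => rfl

theorem shiftLike [NumberField K] (hd : 2 ≤ d) (pd : p.natDegree = d)
    (h0 : f none = C a * X none + C b) (h1 : ∀ i : Fin N, f (some i.castSucc) = X (some i.succ))
    (h2 : f (some (Fin.last N)) = Polynomial.aevalAeval (X none) (X (some (Fin.last N))) p +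
      ∑ i : Fin N, C (δ i) * X (some i.castSucc)) (P : Option (Fin (N + 1)) → K)
    (hP : ∀ G : MvPolynomial (Option (Fin (N + 1))) K, (∀ n, eval (orb f P n) G = 0) → G = 0) :
    Tendsto (fun n : ℕ => ((Finset.univ.sup fun i => (itr f n i).totalDegree : ℕ) : ℝ) ^
      (1 / (n : ℝ))) atTop (𝓝 d) ∧
    Tendsto (fun n : ℕ => logHeight (fun j : Option (Option (Fin (N + 1))) =>
      j.elim 1 (orb f P n)) ^ (1 / (n : ℝ))) atTop (𝓝 d) :=
  limits h0 hd (hf_of hd pd h1 h2) P (escape2 hd pd h0 h1 h2 P hP)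

end Pool.Agent.MP_c8dfda_nt.SL
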