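import Pool.Agent.MP_c8dfda_nt.sl.Rat

/-! A maximum principle at the places where the base point has constant size. -/

namespace Pool.Agent.MP_c8dfda_nt.SL

open NumberField Filter Height Topology Polynomial Pool.Agent.MP_c8dfda_nt.TG
open scoped Polynomial.Bivariate

variable {K : Type*} [Field K] {N d : ℕ} {p : K[X][Y]} {ξ y : ℕ → K} {δ : Fin N → K}

theorem ev_exp (pd : p.natDegree = d) (x z : K) : p.evalEval x z =
    (p.coeff d).eval x * z ^ d + ∑ i ∈ Finset.range d, (p.coeff i).eval x * z ^ i := by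
  rw [← map_evalRingHom_eval, eval_eq_sum_range' (n := d + 1)
    (Nat.lt_succ_of_le (pd ▸ natDegree_map_le)), Finset.sum_range_succ, add_comm]
  simp

theorem monic_rel (pd : p.natDegree = d)
    (rec : ∀ m, y (m + N + 1) = p.evalEval (ξ m) (y (m + N)) + ∑ j, δ j * y (m + j)) (m : ℕ)
    (hc : (p.coeff d).eval (ξ m) ≠ 0) :
    y (m + N) ^ d = ((p.coeff d).eval (ξ m))⁻¹ * y (m + N + 1) +
      ∑ i ∈ Finset.range d, -(p.coeff i).eval (ξ m) * ((p.coeff d).eval (ξ m))⁻¹ * y (m + N) ^ i +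
      ∑ j, -δ j * ((p.coeff d).eval (ξ m))⁻¹ * y (m + j) := by
  simp only [mul_right_comm _ ((p.coeff d).eval (ξ m))⁻¹, ← Finset.sum_mul, neg_mul,
    Finset.sum_neg_distrib]
  rw [rec, ev_exp pd]
  field_simp
  ring

theorem unit_bd (v : AbsoluteValue K ℝ) (hd : 2 ≤ d) (pd : p.natDegree = d)
    (rec : ∀ m, y (m + N + 1) = p.evalEval (ξ m) (y (m + N)) + ∑ j, δ j * y (m + j))
    {T η A Λ : ℝ} (hT : ∀ m, v (ξ m) ≤ T) (η0 : 0 < η) (hη : ∀ m, η ≤ v ((p.coeff d).eval (ξ m)))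
    (hy : ∀ n, v (y n) ≤ A * Λ ^ n) : ∃ B, ∀ n, v (y n) ≤ B := by
  have hc : ∀ m, (p.coeff d).eval (ξ m) ≠ 0 := fun m e => by
    have := hη m
    rw [e, map_zero] at this
    linarith
  have i0 : ∀ m, v ((p.coeff d).eval (ξ m))⁻¹ ≤ η⁻¹ := fun m => by
    rw [map_inv₀]; exact inv_anti₀ η0 (hη m)
  simpa using (loc' v (m0 := 0) hd y _ _ _ (fun m _ => monic_rel pd rec m (hc m)) (fun _ => 1)
    (fun _ => one_pos) ⟨η⁻¹, fun m _ => by simpa using i0 m⟩ (fun i _ => by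
      obtain ⟨B, B0, hB⟩ := ev_bd v hT (p.coeff i)
      exact ⟨B * η⁻¹, fun m _ => by
        simpa using mul_le_mul (hB m) (i0 m) (v.nonneg _) B0⟩) fun j => ⟨v (δ j) * η⁻¹,
      fun m _ => by simpa using mul_le_mul_of_nonneg_left (i0 m) (v.nonneg _)⟩).resolve_right
    (no_esc (A := A) (Λ := Λ) hd (fun n => by simp) fun n => by simpa using hy n)

theorem step1 (v : AbsoluteValue K ℝ) (hd : 2 ≤ d) (pd : p.natDegree = d)
    (rec : ∀ m, y (m + N + 1) = p.evalEval (ξ m) (y (m + N)) + ∑ j, δ j * y (m + j))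
    {T η : ℝ} (hT : ∀ m, v (ξ m) ≤ T) (η0 : 0 < η) : ∃ C, 1 ≤ C ∧ ∀ m (V : ℝ), 1 ≤ V →
      η ≤ v ((p.coeff d).eval (ξ m)) → v (y (m + N + 1)) ≤ V → (∀ j < N, v (y (m + j)) ≤ V) →
      v (y (m + N)) ^ 2 ≤ C * V := by
  choose B B0 hB using fun i => ev_bd v hT (p.coeff i)
  have s1 : 0 ≤ ∑ i ∈ Finset.range d, B i := Finset.sum_nonneg fun i _ => B0 i
  have s2 : 0 ≤ ∑ j, v (δ j) := Finset.sum_nonneg fun _ _ => v.nonneg _
  set A := (1 + ∑ i ∈ Finset.range d, B i + ∑ j, v (δ j)) / η with hA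
  have A0 : 0 ≤ A := by positivity
  refine ⟨1 + 4 * A ^ 2 + 2 * A, by nlinarith, fun m V V1 h1 h2 h3 => ?_⟩
  have M0 := v.nonneg (y (m + N))
  by_cases c : v (y (m + N)) ≤ 1
  · nlinarith [mul_nonneg (by positivity : 0 ≤ 4 * A ^ 2 + 2 * A) (zero_le_one.trans V1)]
  by_cases c' : v (y (m + N)) ≤ 2 * A
  · nlinarith [mul_nonneg (by positivity : 0 ≤ 1 + 2 * A) (zero_le_one.trans V1),
      mul_le_mul_of_nonneg_left V1 (by positivity : 0 ≤ 4 * A ^ 2)]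
  push Not at c c'
  have b1 : v (∑ i ∈ Finset.range d, (p.coeff i).eval (ξ m) * y (m + N) ^ i) ≤
      (∑ i ∈ Finset.range d, B i) * v (y (m + N)) ^ (d - 1) := by
    rw [Finset.sum_mul]
    refine (v.sum_le _ _).trans (Finset.sum_le_sum fun i hi => ?_)
    have := Finset.mem_range.1 hi
    rw [map_mul, map_pow]
    exact mul_le_mul (hB i m) (pow_le_pow_right₀ c.le (by omega)) (by positivity) (B0 i)
  have b2 : v (∑ j, δ j * y (m + j)) ≤ (∑ j, v (δ j)) * V := by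
    rw [Finset.sum_mul]
    refine (v.sum_le _ _).trans (Finset.sum_le_sum fun j _ => ?_)
    rw [map_mul]
    exact mul_le_mul_of_nonneg_left (h3 j j.2) (v.nonneg _)
  have b3 := (v.sub_le_add _ _).trans (add_le_add ((v.sub_le_add _ _).trans (add_le_add h2 b2)) b1)
  rw [rec, ev_exp pd, add_sub_cancel_right, add_sub_cancel_right, map_mul, map_pow] at b3
  obtain ⟨f, rfl⟩ : ∃ f, d = f + 1 + 1 := ⟨d - 2, by omega⟩
  rw [Nat.add_sub_cancel] at b3
  have b4 : v (y (m + N)) ^ 2 ≤ v (y (m + N)) ^ (f + 1 + 1) := pow_le_pow_right₀ c.le (by omega)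
  rw [pow_succ _ (f + 1)] at b3 b4
  have Z0 : 0 ≤ v (y (m + N)) ^ (f + 1) := by positivity
  generalize v (y (m + N)) ^ (f + 1) = Z at b3 b4 Z0
  have b5 : Z * v (y (m + N)) ≤ A * (V + Z) := by
    rw [hA, div_mul_eq_mul_div, le_div_iff₀' η0]
    nlinarith [mul_le_mul_of_nonneg_right h1 (mul_nonneg Z0 M0), mul_nonneg s1 (zero_le_one.trans V1),
      mul_nonneg s2 Z0]
  nlinarith [mul_le_mul_of_nonneg_left c'.le Z0,
    mul_nonneg (by positivity : 0 ≤ 1 + 4 * A ^ 2) (zero_le_one.trans V1)]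

theorem maxp (v : AbsoluteValue K ℝ) (hd : 2 ≤ d) (pd : p.natDegree = d)
    (rec : ∀ m, y (m + N + 1) = p.evalEval (ξ m) (y (m + N)) + ∑ j, δ j * y (m + j))
    {T η : ℝ} (hT : ∀ m, v (ξ m) ≤ T) (η0 : 0 < η) : ∃ C, 1 ≤ C ∧ ∀ (ℓ A : ℕ) (Z : ℝ), 1 ≤ Z →
      (∀ s ≤ ℓ * (N + 2), η ≤ v ((p.coeff d).eval (ξ (A + s)))) →
      (∀ j ≤ A + ℓ * (N + 2) + N, v (y j) ≤ Z ^ 2 ^ ℓ) →
      v (y (A + ℓ * (N + 1) + N)) ≤ C * Z := by
  obtain ⟨C, C1, hC⟩ := step1 v hd pd rec hT η0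
  refine ⟨C, C1, fun ℓ A Z Z1 h1 h2 => ?_⟩
  have key : ∀ s t, s + t = ℓ → ∀ j, A + s * (N + 1) + N ≤ j → j + s ≤ A + ℓ * (N + 2) + N →
      v (y j) ≤ C * Z ^ 2 ^ t := fun s => by
    induction s with
    | zero =>
      intro t ht j _ hj
      rw [show t = ℓ by omega]
      exact (h2 j hj).trans (le_mul_of_one_le_left (by positivity) C1)
    | succ s ih =>
      intro t ht j a b
      rw [add_one_mul] at a
      obtain ⟨m, rfl⟩ : ∃ m, j = A + m + N := ⟨j - N - A, by omega⟩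
      have := hC (A + m) (C * Z ^ 2 ^ (t + 1)) (one_le_mul_of_one_le_of_one_le C1 (one_le_pow₀ Z1))
        (h1 m (by omega)) (ih _ (by omega) _ (by omega) (by omega)) fun j hj =>
          ih _ (by omega) _ (by omega) (by omega)
      exact le_of_pow_le_pow_left₀ two_ne_zero (by positivity) (this.trans_eq (by ring))
  simpa using key ℓ 0 rfl _ le_rfl (by rw [mul_add ℓ N 1, mul_add ℓ N 2]; omega)

theorem sep {a : K} (a0 : a ≠ 0) (a1 : ∀ j, 1 ≤ j → a ^ j ≠ 1) {c : K[X]} (c0 : c.coeff 0 ≠ 0) :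
    ∀ᶠ j : ℕ in atTop, IsCoprime c (c.comp (C (a ^ j) * X)) := by
  let L := AlgebraicClosure K
  have c1 : c ≠ 0 := fun e => c0 (by simp [e])
  have fin := ((c.rootSet_finite L).prod (c.rootSet_finite L)).image fun z => z.2 / z.1
  rw [← Nat.cofinite_eq_atTop]
  refine (fin.preimage (f := fun j : ℕ => algebraMap K L (a ^ j))
    ((algebraMap K L).injective.comp (pow_inj a0 a1)).injOn).subset fun j hj => ?_
  simp only [Set.mem_compl_iff, Set.mem_ofPred_eq, isCoprime_iff_aeval_ne_zero_of_isAlgClosed K L]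
    at hj
  push Not at hj
  obtain ⟨θ, h1, h2⟩ := hj
  rw [aeval_comp, map_mul, aeval_C, aeval_X] at h2
  have θ0 : θ ≠ 0 := fun e => c0 (by
    rw [e, ← coeff_zero_eq_aeval_zero'] at h1
    exact (map_eq_zero _).1 h1)
  exact ⟨(θ, _), ⟨mem_rootSet.2 ⟨c1, h1⟩, mem_rootSet.2 ⟨c1, h2⟩⟩, mul_div_cancel_right₀ _ θ0⟩

theorem sep2 (v : AbsoluteValue K ℝ) {a : K} (hξ : ∀ m, ξ m = a ^ m * ξ 0) {T : ℝ}
    (hT : ∀ m, v (ξ m) ≤ T) {c : K[X]} {J : ℕ} (h : ∀ j ≥ J, IsCoprime c (c.comp (C (a ^ j) * X)))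
    (W : ℕ) : ∃ η, 0 < η ∧ ∀ m j, J ≤ j → j ≤ W → η ≤ v (c.eval (ξ m)) ∨ η ≤ v (c.eval (ξ (m + j))) := by
  choose! A B h using h
  choose a' a0 ha using fun j => ev_bd v hT (A j)
  choose b b0 hb using fun j => ev_bd v hT (B j)
  have s : 0 ≤ ∑ j ∈ Finset.range (W + 1), (a' j + b j) :=
    Finset.sum_nonneg fun j _ => add_nonneg (a0 j) (b0 j)
  refine ⟨(1 + ∑ j ∈ Finset.range (W + 1), (a' j + b j))⁻¹, by positivity, fun m j h1 h2 => ?_⟩
  by_contra z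
  push Not at z
  have e := congrArg (fun q => v (q.eval (ξ m))) (h j h1)
  simp only [eval_add, eval_mul, eval_comp, eval_C, eval_X, eval_one, map_one] at e
  rw [show a ^ j * ξ m = ξ (m + j) by rw [hξ (m + j), hξ m]; ring] at e
  have h3 := e.ge.trans (v.add_le _ _)
  rw [map_mul, map_mul] at h3
  have h4 := Finset.single_le_sum (f := fun j => a' j + b j) (fun j _ => add_nonneg (a0 j) (b0 j))
    (Finset.mem_range.2 (Nat.lt_succ_of_le h2))
  have h5 := h3.trans (add_le_add (mul_le_mul (ha j m) z.1.le (v.nonneg _) (a0 j))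
    (mul_le_mul (hb j m) z.2.le (v.nonneg _) (b0 j)))
  rw [← add_mul, ← div_eq_mul_inv, le_div_iff₀ (by positivity)] at h5
  linarith

end Pool.Agent.MP_c8dfda_nt.SL
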