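import Pool.Agent.MP_c8dfda_nt.sl.End

/-! Rational sequences, normal form at an end and centring. -/

namespace Pool.Agent.MP_c8dfda_nt.SL

open NumberField Filter Height Topology Polynomial Pool.Agent.MP_c8dfda_nt.TG
open scoped Polynomial.Bivariate

variable {K : Type*} [Field K]

theorem sub_ev (A : Subalgebra K (ℕ → K)) {s : ℕ → K} (hs : s ∈ A) (p : K[X]) :
    (fun m => p.eval (s m)) ∈ A := by
  have : (fun m => p.eval (s m)) = aeval s p := funext fun n => by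
    rw [aeval_fn_apply, coe_aeval_eq_eval]
  rw [this, aeval_eq_sum_range]
  exact sum_mem fun i _ => A.smul_mem (pow_mem hs i) _

/-- Sequences that are rational functions of `τ`. -/
def RS (τ : ℕ → K) : Subalgebra K (ℕ → K) where
  carrier := {s | ∃ P Q : K[X], (∀ m, Q.eval (τ m) ≠ 0) ∧ ∀ m, s m * Q.eval (τ m) = P.eval (τ m)}
  mul_mem' := fun ⟨P, Q, h1, h2⟩ ⟨P', Q', h3, h4⟩ => ⟨P * P', Q * Q',
    fun m => by simp [h1, h3], fun m => by simp only [eval_mul, ← h2, ← h4, Pi.mul_apply]; ring⟩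
  add_mem' := fun ⟨P, Q, h1, h2⟩ ⟨P', Q', h3, h4⟩ => ⟨P * Q' + P' * Q, Q * Q',
    fun m => by simp [h1, h3], fun m => by
      simp only [eval_mul, eval_add, ← h2, ← h4, Pi.add_apply]; ring⟩
  algebraMap_mem' := fun r => ⟨C r, 1, by simp, by simp⟩

theorem rs_self (τ : ℕ → K) : τ ∈ RS τ := ⟨X, 1, by simp, by simp⟩

theorem rs_inv {τ : ℕ → K} (s : ℕ → K) (hs : s ∈ RS τ) (h : ∀ m, s m ≠ 0) : s⁻¹ ∈ RS τ := by
  obtain ⟨P, Q, h1, h2⟩ := hs
  refine ⟨Q, P, fun m => h2 m ▸ mul_ne_zero (h m) (h1 m), fun m => ?_⟩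
  rw [← h2, Pi.inv_apply, inv_mul_cancel_left₀ (h m)]

theorem fac0 (P : K[X]) : ∃ (a : ℕ) (R : K[X]), (R ≠ 0 → R.coeff 0 ≠ 0) ∧ P = X ^ a * R := by
  by_cases c : P = 0
  · exact ⟨0, 0, by simp, by simp [c]⟩
  obtain ⟨R, h1, h2⟩ := exists_eq_pow_rootMultiplicity_mul_and_not_dvd P c 0
  rw [C_0, sub_zero] at h1 h2
  exact ⟨_, R, fun _ e => h2 (X_dvd_iff.2 e), h1⟩

theorem rs_ord {τ s : ℕ → K} (τ0 : ∀ m, τ m ≠ 0) (hs : s ∈ RS τ) : ∃ (o : ℤ) (P Q : K[X]),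
    (P ≠ 0 → P.coeff 0 ≠ 0) ∧ Q.coeff 0 ≠ 0 ∧ ∀ m, s m * Q.eval (τ m) = τ m ^ o * P.eval (τ m) := by
  obtain ⟨P, Q, h1, h2⟩ := hs
  obtain ⟨a, P, p0, rfl⟩ := fac0 P
  obtain ⟨b, Q, q0, rfl⟩ := fac0 Q
  refine ⟨a - b, P, Q, p0, q0 fun e => h1 0 (by simp [e]), fun m => ?_⟩
  have := h2 m
  simp only [eval_mul, eval_pow, eval_X] at this
  rw [zpow_sub₀ (τ0 m), zpow_natCast, zpow_natCast, div_mul_eq_mul_div, ← this,
    eq_div_iff (pow_ne_zero _ (τ0 m))]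
  ring

/-- Sequences of exponentially bounded height. -/
def GS (K : Type*) [Field K] [NumberField K] : Subalgebra K (ℕ → K) where
  carrier := {s | ∃ Λ : ℝ, ∀ n, mulHeight₁ (s n) ≤ Λ ^ (n + 1)}
  mul_mem' := fun ⟨A, h1⟩ ⟨B, h2⟩ => ⟨A * B, fun n => (mulHeight₁_mul_le _ _).trans (by
    rw [mul_pow]
    exact mul_le_mul (h1 n) (h2 n) (mulHeight₁_nonneg _) ((mulHeight₁_nonneg _).trans (h1 n)))⟩
  add_mem' := fun ⟨A, h1⟩ ⟨B, h2⟩ => ⟨2 ^ totalWeight K * A * B, fun n =>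
    (mulHeight₁_add_le _ _).trans (by
      rw [mul_pow, mul_pow]
      have := (mulHeight₁_nonneg _).trans (h1 n)
      exact mul_le_mul (mul_le_mul (le_self_pow₀ (one_le_pow₀ one_le_two) n.succ_ne_zero) (h1 n)
        (mulHeight₁_nonneg _) (by positivity)) (h2 n) (mulHeight₁_nonneg _) (by positivity))⟩
  algebraMap_mem' := fun r => ⟨mulHeight₁ r, fun n =>
    le_self_pow₀ (one_le_mulHeight₁ _) n.succ_ne_zero⟩

theorem gs_inv [NumberField K] (s : ℕ → K) (hs : s ∈ GS K) (_ : ∀ m, s m ≠ 0) : s⁻¹ ∈ GS K :=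
  hs.imp fun _ h n => by rw [Pi.inv_apply, mulHeight₁_inv]; exact h n

theorem gs_shift [NumberField K] {s : ℕ → K} (hs : s ∈ GS K) (j : ℕ) :
    (fun n => s (n + j)) ∈ GS K := by
  obtain ⟨Λ, h⟩ := hs
  refine ⟨Λ ^ (j + 1), fun n => (h _).trans ?_⟩
  rw [← pow_mul]
  exact pow_le_pow_right₀ (by simpa using (one_le_mulHeight₁ _).trans (h 0)) (by nlinarith)

theorem gs_geo [NumberField K] {ξ : ℕ → K} {a : K} (h : ∀ m, ξ m = a ^ m * ξ 0) : ξ ∈ GS K :=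
  ⟨mulHeight₁ a * mulHeight₁ (ξ 0), fun n => by
    rw [h, mul_pow]
    refine (mulHeight₁_mul_le _ _).trans ?_
    rw [mulHeight₁_pow]
    exact mul_le_mul (pow_le_pow_right₀ (one_le_mulHeight₁ _) n.le_succ)
      (le_self_pow₀ (one_le_mulHeight₁ _) n.succ_ne_zero) (mulHeight₁_nonneg _) (by positivity)⟩

theorem endl2 [NumberField K] {N d : ℕ} (hd : 2 ≤ d) {τ w : ℕ → K} {ω : K}
    (ω0 : ω ≠ 0) (ω1 : ∀ j, 1 ≤ j → ω ^ j ≠ 1) (hτ : ∀ m, τ m = ω ^ m * τ 0) (τ0 : τ 0 ≠ 0)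
    {k : ℤ} {D : K[X]} (D0 : D.coeff 0 ≠ 0) {e : ℕ → ℕ → K} (he : ∀ i, e i ∈ RS τ) {δ : Fin N → K}
    (rel : ∀ m, τ m ^ k * D.eval (τ m) * w (m + N) ^ d + ∑ i ∈ Finset.range (d - 1),
      e i m * w (m + N) ^ i = w (m + N + 1) - ∑ j, δ j * w (m + j)) (hw : w ∈ GS K) :
    (∃ (k : ℕ) (s : Set ((Fin k → Fin d) → K)), s.Finite ∧ (∀ c ∈ s, ∃ e, c e ≠ 0) ∧
      ∀ᶠ n : ℕ in atTop, ∃ c ∈ s, ∑ e, c e * ∏ j : Fin k, w (n + j + N) ^ (e j : ℕ) = 0) ∨
    ∀ v : AbsoluteValue K ℝ, Pl v → v ω < 1 → ∃ C, ∀ n, v (w n) ^ (d - 1) * v (τ n) ^ k ≤ C := by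
  have τn : ∀ m, τ m ≠ 0 := fun m => by rw [hτ]; exact mul_ne_zero (pow_ne_zero _ ω0) τ0
  choose o P Q h1 h2 h3 using fun i => rs_ord τn (he i)
  obtain ⟨Λ, hΛ⟩ := hw
  have q : ∀ s : Finset ℕ, (∏ i ∈ s, Q i).coeff 0 ≠ 0 := fun s => by
    rw [coeff_zero_prod]; exact Finset.prod_ne_zero_iff.2 fun i _ => h2 i
  refine endl hd ω0 ω1 hτ τ0 (D := D * ∏ i ∈ Finset.range (d - 1), Q i)
    (Q := ∏ i ∈ Finset.range (d - 1), Q i) (o := o) (δ := δ)
    (F := fun i => P i * ∏ l ∈ (Finset.range (d - 1)).erase i, Q l)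
    (by rw [mul_coeff_zero]; exact mul_ne_zero D0 (q _)) (fun i h => by
      rw [mul_coeff_zero]; exact mul_ne_zero (h1 i (left_ne_zero_of_mul h)) (q _)) (fun m => ?_) hΛ
  rw [← rel, mul_add, Finset.mul_sum, eval_mul]
  refine congrArg₂ _ (by ring) (Finset.sum_congr rfl fun i hi => ?_)
  rw [← Finset.mul_prod_erase _ _ hi, eval_mul, eval_mul, ← mul_assoc, ← h3]
  ring

theorem centre [CharZero K] {N d : ℕ} (hd : 2 ≤ d) {p : K[X][Y]} (pd : p.natDegree = d)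
    {ξ y β : ℕ → K} (hc : ∀ m, (p.coeff d).eval (ξ m) ≠ 0) {δ : Fin N → K}
    (rec : ∀ m, y (m + N + 1) = p.evalEval (ξ m) (y (m + N)) + ∑ j, δ j * y (m + j))
    (hβ : ∀ m, β m = -(p.coeff (d - 1)).eval (ξ m) / (d * (p.coeff d).eval (ξ m))) :
    ∃ e : ℕ → ℕ → K, (∀ A : Subalgebra K (ℕ → K), (∀ s ∈ A, (∀ m, s m ≠ 0) → s⁻¹ ∈ A) →
      (∀ j, (fun m => ξ (m + j)) ∈ A) → β ∈ A ∧ ∀ i, e i ∈ A) ∧
      ∀ m, (p.coeff d).eval (ξ (m + N)) * (y (m + N + N) - β (m + N)) ^ d +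
        ∑ i ∈ Finset.range (d - 1), e i m * (y (m + N + N) - β (m + N)) ^ i =
        (y (m + N + 1 + N) - β (m + N + 1)) - ∑ j, δ j * (y (m + j + N) - β (m + j)) := by
  have d0 : (d : K) ≠ 0 := by exact_mod_cast (by omega : d ≠ 0)
  refine ⟨fun i => (∑ l ∈ Finset.range (d + 1), ((l + i).choose i : K) •
      ((fun m => (p.coeff (l + i)).eval (ξ (m + N))) * (fun m => β (m + N)) ^ l)) +
      if i = 0 then (∑ j, δ j • fun m => β (m + j)) - fun m => β (m + (N + 1)) else 0,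
    fun A h1 h2 => ?_, fun m => ?_⟩
  · have b : ∀ j, (fun m => β (m + j)) ∈ A := fun j => by
      have := mul_mem (neg_mem (sub_ev A (h2 j) (p.coeff (d - 1)))) (h1 _ (A.smul_mem
        (sub_ev A (h2 j) (p.coeff d)) (d : K)) fun m => mul_ne_zero d0 (hc _))
      convert this using 1
      funext m
      simp [hβ, div_eq_mul_inv]
    refine ⟨b 0, fun i => add_mem (sum_mem fun l _ => A.smul_mem
      (mul_mem (sub_ev A (h2 N) _) (pow_mem (b N) l)) _) ?_⟩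
    split_ifs
    exacts [sub_mem (sum_mem fun j _ => A.smul_mem (b j) _) (b _), zero_mem _]
  set q := p.map (evalRingHom (ξ (m + N)))
  have qd : q.natDegree ≤ d := pd ▸ natDegree_map_le
  have t : ∀ i n, d - i < n → (taylor (β (m + N)) q).coeff i = ∑ l ∈ Finset.range n,
      ((l + i).choose i : K) * ((p.coeff (l + i)).eval (ξ (m + N)) * β (m + N) ^ l) :=
    fun i n h => by
      rw [taylor_coeff, eval_eq_sum_range' (n := n) ((natDegree_hasseDeriv_le q i).trans_lt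
        (by omega))]
      exact Finset.sum_congr rfl fun l _ => by simp [hasseDeriv_coeff, q, mul_assoc]
  have h := taylor_eval (β (m + N)) q (y (m + N + N) - β (m + N))
  obtain ⟨f, rfl⟩ : ∃ f, d = f + 1 + 1 := ⟨d - 2, by omega⟩
  rw [sub_add_cancel, map_evalRingHom_eval, eval_eq_sum_range' (n := f + 1 + 1 + 1)
    (by rw [natDegree_taylor]; omega), Finset.sum_range_succ, Finset.sum_range_succ,
    t (f + 1) 2 (by omega), t (f + 1 + 1) 1 (by omega)] at h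
  have z : ∑ l ∈ Finset.range 2, ((l + (f + 1)).choose (f + 1) : K) *
      ((p.coeff (l + (f + 1))).eval (ξ (m + N)) * β (m + N) ^ l) = 0 := by
    have := hc (m + N)
    simp only [Finset.sum_range_succ, Finset.range_zero, Finset.sum_empty, zero_add, hβ,
      Nat.choose_self, add_comm 1 (f + 1), Nat.choose_succ_self_right, Nat.add_sub_cancel]
    field_simp
    push_cast
    ring
  rw [z, Finset.sum_range_one, zero_add (f + 1 + 1)] at h
  rw [add_right_comm (m + N) 1 N, rec, ← h]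
  simp only [Nat.add_sub_cancel, Pi.add_apply, add_mul, Finset.sum_add_distrib, Finset.sum_apply,
    Pi.smul_apply, Pi.mul_apply, Pi.pow_apply, smul_eq_mul, ite_apply, ite_mul, Pi.zero_apply,
    zero_mul, Finset.sum_ite_eq', Finset.mem_range, f.succ_pos, if_true, Pi.sub_apply, mul_sub,
    Finset.sum_sub_distrib, add_right_comm m N, ← add_assoc]
  rw [Finset.sum_congr rfl fun i _ => congrArg (· * _) (t i (f + 1 + 1 + 1) (by omega))]
  simp only [Nat.choose_self, add_right_comm m 1 N]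
  push_cast
  ring

end Pool.Agent.MP_c8dfda_nt.SL
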