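import Pool.Agent.MP_c8dfda_nt.sl.Liou

set_option maxHeartbeats 400000

/-! The counting argument along words of roots. -/

namespace Pool.Agent.MP_c8dfda_nt.SL

open NumberField Filter Height Topology Polynomial Pool.Agent.MP_c8dfda_nt.TG

variable {L : Type*} [Field L]

theorem fil_ev {Γ : Type*} [Fintype Γ] {g : Γ → ℕ → L} {ω : Γ → ℕ} {x : ℕ → L}
    (hx : x ∈ Fil L g ω 0) (p : L[X]) : (fun n => p.eval (x n)) ∈ Fil L g ω 0 := by
  convert fil_aeval hx p using 1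
  funext n
  rw [aeval_fn_apply, coe_aeval_eq_eval]

theorem word (v : AbsoluteValue L ℝ) {N d r k T M : ℕ} (hd : 1 ≤ d) (t u z : ℕ → L) {α : L}
    (α0 : α ≠ 0) (ht : ∀ n j, t (n + j) = α ^ j * t n) {q : L[X]} (q0 : q ≠ 0)
    (qm : ∀ ζ, q.rootMultiplicity ζ < d) (A : ℕ → L[X]) (B : Fin N → L[X]) (B' E : L[X])
    (rel : ∀ m, q.eval (u (m + N)) = t m * (∑ i ∈ Finset.range M, (A i).eval (t m) * u (m + N) ^ i
      + B'.eval (t m) * u (m + N + 1) + ∑ i, (B i).eval (t m) * u (m + i)))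
    (hz : ∀ m, t m ^ r * z m = E.eval (t m) * u (m + N))
    (hk : (d - 1) ^ k * T ^ (N + 2) < d ^ k) (w : Fin k → L) (I : Set ℕ) (τ : ℕ → ℝ)
    (τ0 : ∀ n, 0 ≤ τ n) (τ1 : ∀ n, τ n ≤ 1) {C : ℝ} (hu : ∀ n, v (u n) ≤ C)
    (hτ : ∀ n, v (t n) ≤ C * τ n ^ d) (hw : ∀ j : Fin k, ∀ n ∈ I, v (u (n + j + N) - w j) ≤ C * τ n) :
    ∃ c : (Fin k → Fin d) → L, (∃ e, c e ≠ 0) ∧ ∃ C', ∀ n ∈ I,
      v (t n) ^ (r * d * k) * v (∑ e, c e * ∏ j : Fin k, z (n + j) ^ (e j : ℕ)) ≤ C' * τ n ^ T := by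
  classical
  let U : ℕ → ℕ → L := fun i n => u (n + i)
  obtain ⟨g, g1, g2, g3, g4⟩ : ∃ g : Fin k ⊕ Fin N ⊕ Bool → ℕ → L,
      (∀ j, g (.inl j) = U (j + N) - algebraMap _ _ (w j)) ∧ (∀ i, g (.inr (.inl i)) = t * U i) ∧
      g (.inr (.inr true)) = t * U (k + N) ∧ g (.inr (.inr false)) = t :=
    ⟨Sum.elim (fun j => U (j + N) - algebraMap _ _ (w j))
      (Sum.elim (fun i => t * U i) fun b => cond b (t * U (k + N)) t), fun _ => rfl, fun _ => rfl,
      rfl, rfl⟩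
  obtain ⟨ω, ω1, ω2⟩ : ∃ ω : Fin k ⊕ Fin N ⊕ Bool → ℕ, (∀ j, ω (.inl j) = 1) ∧
      ∀ j, ω (.inr j) = d := ⟨Sum.elim (fun _ => 1) fun _ => d, fun _ => rfl, fun _ => rfl⟩
  have a1 : ∀ j : Fin k, U (j + N) - algebraMap _ _ (w j) ∈ Fil L g ω 1 := fun j => by
    rw [← g1, ← ω1 j]; exact fil_gen _
  have a2 : ∀ j : Fin k, U (j + N) ∈ Fil L g ω 0 := fun j => by
    simpa using add_mem (fil_anti zero_le_one (a1 j)) (fil_const (g := g) (ω := ω) (w j))
  have a3 : t ∈ Fil L g ω d := by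
    rw [← ω2 (.inr false), ← g4]; exact fil_gen _
  have a4 : ∀ i ≤ k + N, t * U i ∈ Fil L g ω d := fun i hi => by
    by_cases c : i < N
    · rw [← ω2 (.inl ⟨i, c⟩), ← g2 ⟨i, c⟩]; exact fil_gen _
    rcases hi.eq_or_lt with rfl | hi
    · rw [← ω2 (.inr true), ← g3]; exact fil_gen _
    · have := fil_mul0 a3 (a2 ⟨i - N, by omega⟩)
      rwa [show i - N + N = i by omega] at this
  have a5 : ∀ (j : ℕ) (p : L[X]), (fun n => p.eval (t (n + j))) ∈ Fil L g ω 0 := fun j p => by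
    simp only [ht]
    exact fil_ev (x := α ^ j • t) (Submodule.smul_mem _ _ (fil_anti d.zero_le a3)) p
  have a6 : ∀ j : Fin k, aeval (U (j + N)) q ∈ Fil L g ω d := fun j => by
    have e : aeval (U (j + N)) q = α ^ (j : ℕ) • (t * ∑ i ∈ Finset.range M,
        (fun n => (A i).eval (t (n + j))) * U (j + N) ^ i +
        t * U (j + N + 1) * (fun n => B'.eval (t (n + j))) +
        ∑ i : Fin N, t * U (j + i) * fun n => (B i).eval (t (n + j))) := by
      funext n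
      rw [aeval_fn_apply, coe_aeval_eq_eval]
      simp only [U, Pi.smul_apply, Pi.add_apply, Pi.mul_apply, Finset.sum_apply, Pi.pow_apply,
        smul_eq_mul, ← add_assoc]
      rw [rel, mul_add, mul_add, mul_add, mul_add, Finset.mul_sum Finset.univ,
        Finset.mul_sum Finset.univ]
      nth_rw 1 [ht]
      refine congrArg₂ _ (congrArg₂ _ (by ring) (by rw [ht]; ring))
        (Finset.sum_congr rfl fun i _ => by rw [ht]; ring)
    rw [e]
    refine Submodule.smul_mem _ _ (add_mem (add_mem (fil_mul0 a3 (Submodule.sum_mem _ fun i _ =>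
      fil_mul0 (a5 _ _) (by simpa using fil_pow (a2 j) i))) (fil_mul0 (a4 _ (by omega)) (a5 _ _)))
      (Submodule.sum_mem _ fun i _ => fil_mul0 (a4 _ (by omega)) (a5 _ _)))
  obtain ⟨c, c0, hc⟩ := fil_dep (L := L) (g := g) (ω := ω) (Sum.forall.2 ⟨fun _ => (ω1 _).ge,
    fun _ => hd.trans (ω2 _).ge⟩) (Sum.elim (fun j => q.rootMultiplicity (w j)) fun _ => T) T
    (Sum.forall.2 ⟨fun j => .inr (by
      rw [g1, ω1, one_mul]
      exact root_red q0 (w j) (a1 j) (fil_anti (qm _) (a6 j))), fun _ => .inl le_rfl⟩)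
    (J := Fin k → Fin d) (by
      rw [Fintype.prod_sum_type]
      simp only [Sum.elim_inl, Sum.elim_inr, Finset.prod_const, Finset.card_univ, Fintype.card_sum,
        Fintype.card_fin, Fintype.card_bool, Fintype.card_pi]
      refine lt_of_le_of_lt (Nat.mul_le_mul_right _ ?_) hk
      simpa using Finset.prod_le_pow_card Finset.univ (fun j => q.rootMultiplicity (w j)) (d - 1)
        fun j _ => Nat.le_sub_one_of_lt (qm _))
    (fun e n => t n ^ (r * d * k) * ∏ j : Fin k, z (n + j) ^ (e j : ℕ)) fun e => by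
      have : (fun n => t n ^ (r * d * k) * ∏ j : Fin k, z (n + j) ^ (e j : ℕ)) =
          ∏ j : Fin k, (t ^ (r * (d - e j)) * (((α ^ (j : ℕ)) ^ r)⁻¹ •
            ((fun n => E.eval (t (n + j))) * U (j + N))) ^ (e j : ℕ)) := by
        funext n
        simp only [U, Finset.prod_apply, Pi.smul_apply, Pi.mul_apply, Pi.pow_apply, smul_eq_mul,
          ← add_assoc, ← hz]
        rw [show t n ^ (r * d * k) = ∏ _j : Fin k, t n ^ (r * d) by simp [pow_mul],
          ← Finset.prod_mul_distrib]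
        refine Finset.prod_congr rfl fun j _ => ?_
        rw [ht, mul_pow _ (t n), mul_assoc, inv_mul_cancel_left₀ (by simp [α0]), mul_pow, ← mul_assoc,
          ← pow_mul, ← pow_add, ← mul_add, Nat.sub_add_cancel (e j).2.le]
      rw [this]
      refine fil_prod _ fun j => fil_mul0 (by simpa using fil_pow (fil_anti d.zero_le a3) _) ?_
      simpa using fil_pow (Submodule.smul_mem _ _ (fil_mul0 (a5 j E) (a2 j))) (e j : ℕ)
  have b : ∀ i n, v ((t * U i) n) ≤ C * C * τ n ^ d := fun i n => by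
    rw [Pi.mul_apply, map_mul, mul_right_comm]
    exact mul_le_mul (hτ n) (hu _) (v.nonneg _) ((v.nonneg _).trans (hτ n))
  obtain ⟨C', hC⟩ := fil_small (g := g) (ω := ω) v I τ τ0 τ1 (Sum.forall.2 ⟨fun j => ⟨C,
    fun n hn => by simpa [g1, ω1, U, ← add_assoc] using hw j n hn⟩, Sum.forall.2
      ⟨fun i => ⟨_, fun n _ => by rw [g2, ω2]; exact b i n⟩, Bool.forall_bool.2
        ⟨⟨C, fun n _ => by rw [g4, ω2]; exact hτ n⟩,
          ⟨_, fun n _ => by rw [g3, ω2]; exact b _ n⟩⟩⟩⟩) hc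
  refine ⟨c, c0, C', fun n hn => le_trans (le_of_eq ?_) (hC n hn)⟩
  rw [← map_pow, ← map_mul, Finset.mul_sum, Finset.sum_apply]
  exact congrArg v (Finset.sum_congr rfl fun e _ => by simp [mul_left_comm])

theorem exists_len {d : ℕ} (hd : 2 ≤ d) (E N : ℕ) :
    ∃ k, 1 ≤ k ∧ (d - 1) ^ k * (E * k) ^ N < d ^ k := by
  obtain ⟨e, rfl⟩ : ∃ e, d = e + 1 := ⟨d - 1, by omega⟩
  have e0 : (0 : ℝ) < e := by exact_mod_cast (by omega : 0 < e)
  have := (tendsto_pow_const_div_const_pow_of_one_lt N (r := (e + 1 : ℝ) / e)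
    ((one_lt_div e0).2 (lt_add_one _))).const_mul ((E : ℝ) ^ N)
  rw [mul_zero] at this
  obtain ⟨k, h1, h2⟩ := ((eventually_ge_atTop 1).and (this.eventually (gt_mem_nhds one_pos))).exists
  refine ⟨k, h1, ?_⟩
  rw [← mul_div_assoc, div_lt_one (by positivity), div_pow, lt_div_iff₀ (by positivity),
    ← mul_pow, mul_comm] at h2
  rw [Nat.add_sub_cancel]
  exact_mod_cast h2

theorem runge [NumberField L] {v : AbsoluteValue L ℝ} (hv : Pl v) {N d r M : ℕ} (hd : 2 ≤ d)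
    (t u z : ℕ → L) {α : L} (α0 : α ≠ 0) (hα : v α < 1) (ht : ∀ n, t n = α ^ n * t 0)
    (t0 : t 0 ≠ 0) {q : L[X]} (hq : q.Splits) (qd : q.natDegree = d)
    (qm : ∀ ζ, q.rootMultiplicity ζ < d) (A : ℕ → L[X]) (B : Fin N → L[X]) (B' E : L[X])
    (rel : ∀ m, q.eval (u (m + N)) = t m * (∑ i ∈ Finset.range M, (A i).eval (t m) * u (m + N) ^ i
      + B'.eval (t m) * u (m + N + 1) + ∑ i, (B i).eval (t m) * u (m + i)))
    (hz : ∀ m, t m ^ r * z m = E.eval (t m) * u (m + N)) {C : ℝ} (hu : ∀ n, v (u n) ≤ C)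
    {Λ : ℝ} (hs : ∀ n, Sz (z n) (Λ ^ (n + 1))) :
    ∃ (k : ℕ) (s : Set ((Fin k → Fin d) → L)), s.Finite ∧ (∀ c ∈ s, ∃ e, c e ≠ 0) ∧
      ∀ᶠ n : ℕ in atTop, ∃ c ∈ s, ∑ e, c e * ∏ j : Fin k, z (n + j) ^ (e j : ℕ) = 0 := by
  classical
  have Λ1 : 1 ≤ Λ := by simpa using (hs 0).one_le
  have q0 : q ≠ 0 := fun e => by rw [e, natDegree_zero] at qd; omega
  obtain ⟨θ, θ0, θ1, hθ⟩ : ∃ θ : ℝ, 0 < θ ∧ θ < 1 ∧ θ ^ d = v α :=
    ⟨v α ^ (d : ℝ)⁻¹, Real.rpow_pos_of_pos (v.pos α0) _, Real.rpow_lt_one (v.nonneg _) hα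
      (by positivity), Real.rpow_inv_natCast_pow (v.nonneg _) (by omega)⟩
  have vt : ∀ n, v (t n) = v (t 0) * (θ ^ n) ^ d := fun n => by
    rw [ht, map_mul, map_pow, ← hθ, pow_right_comm, mul_comm]
  have τ1 : ∀ n : ℕ, θ ^ n ≤ 1 := fun n => pow_le_one₀ θ0.le θ1.le
  have vt1 : ∀ n, v (t n) ≤ max 1 (v (t 0)) := fun n => by
    rw [vt]
    exact (mul_le_of_le_one_right (v.nonneg _) (pow_le_one₀ (by positivity) (τ1 n))).trans
      (le_max_right _ _)
  have bd : ∀ p : L[X], ∃ D, ∀ n, v (p.eval (t n)) ≤ D := fun p => by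
    refine ⟨∑ i ∈ Finset.range (p.natDegree + 1), v (p.coeff i) * max 1 (v (t 0)) ^ i, fun n => ?_⟩
    rw [eval_eq_sum_range]
    refine (v.sum_le _ _).trans (Finset.sum_le_sum fun i _ => ?_)
    rw [map_mul, map_pow]
    exact mul_le_mul_of_nonneg_left (pow_le_pow_left₀ (v.nonneg _) (vt1 n) _) (v.nonneg _)
  have C0 : 0 ≤ C := (v.nonneg _).trans (hu 0)
  obtain ⟨D, hD⟩ : ∃ D, ∀ m, v (q.eval (u (m + N))) ≤ v (t m) * D := by
    choose a ha using fun i => bd (A i)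
    choose b hb using fun i => bd (B i)
    obtain ⟨b', hb'⟩ := bd B'
    refine ⟨∑ i ∈ Finset.range M, a i * C ^ i + b' * C + ∑ i, b i * C, fun m => ?_⟩
    rw [rel, map_mul]
    refine mul_le_mul_of_nonneg_left ((v.add_le _ _).trans (add_le_add ((v.add_le _ _).trans
      (add_le_add ((v.sum_le _ _).trans (Finset.sum_le_sum fun i _ => ?_)) ?_))
      ((v.sum_le _ _).trans (Finset.sum_le_sum fun i _ => ?_)))) (v.nonneg _)
    · rw [map_mul, map_pow]
      exact mul_le_mul (ha i m) (pow_le_pow_left₀ (v.nonneg _) (hu _) _) (by positivity)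
        ((v.nonneg _).trans (ha i m))
    · rw [map_mul]
      exact mul_le_mul (hb' m) (hu _) (v.nonneg _) ((v.nonneg _).trans (hb' m))
    · rw [map_mul]
      exact mul_le_mul (hb i m) (hu _) (v.nonneg _) ((v.nonneg _).trans (hb i m))
  choose ζ ζ1 ζ2 using fun m => near v hq (by omega) (u (m + N))
  have l0 : 0 < v q.leadingCoeff := v.pos (leadingCoeff_ne_zero.2 q0)
  obtain ⟨F, F1, F2, F3⟩ : ∃ F, C ≤ F ∧ v (t 0) ≤ F ∧ ∀ m, v (u (m + N) - ζ m) ≤ F * θ ^ m := by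
    set G := v (t 0) * D / v q.leadingCoeff
    refine ⟨max (max C (v (t 0))) (max 1 G), le_max_of_le_left (le_max_left _ _),
      le_max_of_le_left (le_max_right _ _), fun m => ?_⟩
    refine le_trans ?_ (mul_le_mul_of_nonneg_right (le_max_right _ _) (by positivity))
    refine le_of_pow_le_pow_left₀ (n := d) (by omega) (by positivity) ?_
    have h1 := (ζ2 m).trans (hD m)
    rw [qd, vt, mul_right_comm, ← le_div_iff₀' l0, mul_div_right_comm] at h1
    rw [mul_pow]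
    exact h1.trans (mul_le_mul_of_nonneg_right ((le_max_right 1 G).trans
      (le_self_pow₀ (le_max_left _ _) (by omega))) (by positivity))
  set ℓ := Module.finrank ℚ L
  obtain ⟨E0, hE⟩ : ∃ E0 : ℕ, θ ^ E0 * Λ ^ (d * 3 * ℓ) < 1 := by
    have := (tendsto_pow_atTop_nhds_zero_of_lt_one θ0.le θ1).mul_const (Λ ^ (d * 3 * ℓ))
    rw [zero_mul] at this
    exact (this.eventually (gt_mem_nhds one_pos)).exists
  obtain ⟨k, k1, hk⟩ := exists_len hd (E0 + d * (r * d)) (N + 2)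
  have key : ∀ w : Fin k → q.roots.toFinset, ∃ c : (Fin k → Fin d) → L, (∃ e, c e ≠ 0) ∧
      ∀ᶠ n : ℕ in atTop, (∀ j : Fin k, ζ (n + j) = w j) →
        ∑ e, c e * ∏ j : Fin k, z (n + j) ^ (e j : ℕ) = 0 := fun w => by
    obtain ⟨c, c0, C', hc⟩ := word v (by omega) t u z α0 (fun n j => by
      rw [ht (n + j), ht n]; ring) q0 qm A B B' E rel hz hk (fun j => w j)
      {n | ∀ j : Fin k, ζ (n + j) = w j} (fun n => θ ^ n) (fun n => by positivity) τ1 (C := F)
      (fun n => (hu n).trans F1) (fun n => by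
        rw [vt]; exact mul_le_mul_of_nonneg_right F2 (by positivity)) fun j n hn => by
        rw [← hn j]
        exact (F3 _).trans (mul_le_mul_of_nonneg_left (pow_le_pow_of_le_one θ0.le θ1.le
          (by omega)) (C0.trans F1))
    obtain ⟨y, y0, hy⟩ := exists_integral_multiples ℤ ℚ (Finset.univ.image c)
    obtain ⟨A', hA⟩ := sz_sum (fun e => y • c e) fun e =>
      hy _ (Finset.mem_image_of_mem _ (Finset.mem_univ e))
    have y1 : (y : L) ≠ 0 := by exact_mod_cast y0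
    refine ⟨c, c0, ?_⟩
    have lim := (tendsto_pow_atTop_nhds_zero_of_lt_one (by positivity)
      (pow_lt_one₀ (by positivity) hE (by omega : k ≠ 0))).const_mul
      (v y * C' / v (t 0) ^ (r * d * k) * (2 * (A' * (Λ ^ k) ^ (d * k)) ^ 3) ^ ℓ)
    rw [mul_zero] at lim
    filter_upwards [lim.eventually (gt_mem_nhds one_pos)] with n hn hw
    by_contra ne
    have h1 := (hA (fun j => z (n + j)) (Λ ^ (n + k)) (one_le_pow₀ Λ1) fun j =>
      (hs _).mono (pow_le_pow_right₀ Λ1 (by omega)))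
    simp only [zsmul_eq_mul, mul_assoc (y : L), ← Finset.mul_sum] at h1
    have h2 := h1.liou (mul_ne_zero y1 ne) hv
    have h3 := hc n hw
    rw [map_mul] at h2
    generalize v (∑ e, c e * ∏ j : Fin k, z (n + j) ^ (e j : ℕ)) = X at h2 h3
    have v0 := v.pos t0
    have h4 : X ≤ C' / v (t 0) ^ (r * d * k) * (θ ^ n) ^ (E0 * k) := by
      rw [div_mul_eq_mul_div, le_div_iff₀ (by positivity)]
      refine le_of_mul_le_mul_right ?_ (by positivity : 0 < ((θ ^ n) ^ d) ^ (r * d * k))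
      rw [vt, mul_pow] at h3
      refine le_trans (le_of_eq (by ring)) (h3.trans (le_of_eq (by ring)))
    refine (h2.trans ((mul_le_mul_of_nonneg_right (mul_le_mul_of_nonneg_left h4 (v.nonneg _))
      (pow_nonneg (mul_nonneg zero_le_two (pow_nonneg (zero_le_one.trans h1.one_le) _)) _)).trans
      (le_of_eq ?_))).not_gt hn
    ring
  choose c c0 hc using key
  refine ⟨k, Set.range c, Set.finite_range c, fun _ ⟨w, e⟩ => e ▸ c0 w, ?_⟩
  filter_upwards [eventually_all.2 hc] with n hn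
  exact ⟨_, ⟨fun j => ⟨ζ (n + j), Multiset.mem_toFinset.2 (ζ1 _)⟩, rfl⟩, hn _ fun _ => rfl⟩

end Pool.Agent.MP_c8dfda_nt.SL
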