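import Pool.Agent.MP_c8dfda_nt.sl.Core

/-! Upper bounds and the limits for skew products over an affine map. -/

namespace Pool.Agent.MP_c8dfda_nt.SL

open NumberField Filter Function Height Topology MvPolynomial Pool.Agent.MP_c8dfda_nt.TG

variable {K : Type*} [Field K] [NumberField K] {ι : Type*} [Fintype ι]
  {f : Option ι → MvPolynomial (Option ι) K} {a b : K} {d : ℕ}

theorem gs_sum {J : Type*} (s : Finset J) {c : J → ℕ → K} (h : ∀ i, c i ∈ GS K) :
    ∃ Λ : ℝ, 0 ≤ Λ ∧ ∀ n, ∑ i ∈ s, mulHeight₁ (c i n) ≤ Λ ^ (n + 1) := by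
  classical
  induction s using Finset.induction_on with
  | empty => exact ⟨0, le_rfl, by simp⟩
  | insert i s hi ih =>
    obtain ⟨A, A0, hA⟩ := ih
    obtain ⟨B, hB⟩ := h i
    have B0 : 0 ≤ B := by simpa using (mulHeight₁_nonneg _).trans (hB 0)
    refine ⟨B + A, by positivity, fun n => ?_⟩
    rw [Finset.sum_insert hi]
    exact (add_le_add (hB n) (hA n)).trans (pow_add_pow_le B0 A0 n.succ_ne_zero)

theorem gs_aff {x : ℕ → K} (h : ∀ n, x (n + 1) = a * x n + b) : x ∈ GS K := by
  have a1 := one_le_mulHeight₁ a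
  have b1 := one_le_mulHeight₁ b
  have x1 := one_le_mulHeight₁ (x 0)
  have t1 : (1 : ℝ) ≤ 2 ^ totalWeight K := one_le_pow₀ one_le_two
  refine ⟨2 ^ totalWeight K * mulHeight₁ a * mulHeight₁ b * mulHeight₁ (x 0), fun n => ?_⟩
  induction n with
  | zero =>
    rw [zero_add, pow_one]
    exact le_mul_of_one_le_left (by positivity)
      (one_le_mul_of_one_le_of_one_le (one_le_mul_of_one_le_of_one_le t1 a1) b1)
  | succ n ih =>
    rw [h, pow_succ']
    refine (mulHeight₁_add_le _ _).trans ?_
    calc _ ≤ 2 ^ totalWeight K * (mulHeight₁ a * mulHeight₁ (x n)) * mulHeight₁ b := by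
          gcongr; exact mulHeight₁_mul_le _ _
      _ = 2 ^ totalWeight K * mulHeight₁ a * mulHeight₁ b * 1 * mulHeight₁ (x n) := by ring
      _ ≤ _ := by gcongr

omit [NumberField K] [Fintype ι] in
theorem x_succ (h0 : f none = C a * X none + C b) (P : Option ι → K) (n : ℕ) :
    orb f P (n + 1) none = a * orb f P n none + b := by
  rw [orb_succ, h0]
  simp

theorem step_up2 (h0 : f none = C a * X none + C b) (hd : 2 ≤ d)
    (hf : ∀ i, (optionEquivRight K ι (f (some i))).totalDegree ≤ d) (P : Option ι → K)
    {v : AbsoluteValue K ℝ} (hv : Pl v) :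
    ∃ C : ℝ, ∀ᶠ n : ℕ in atTop, Real.log (W v (orb f P n)) ≤ C * d ^ n := by
  have hx : (fun n => orb f P n none) ∈ GS K := gs_aff (x_succ h0 P)
  choose A A0 hA using fun i => gs_sum (optionEquivRight K ι (f (some i))).support fun m =>
    sub_ev _ hx ((optionEquivRight K ι (f (some i))).coeff m)
  obtain ⟨B, hB⟩ := gs_shift hx 1
  obtain ⟨Λ, Λ1, hΛ⟩ := sum_bd Finset.univ fun i : Option ι => i.elim B A
  have l0 := Real.log_nonneg Λ1
  obtain ⟨C, hC⟩ := upper (fun n => Real.log (W v (orb f P n)) / (2 * Real.log Λ + 1)) (d := d)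
    (by exact_mod_cast hd) ((eventually_ge_atTop 1).mono fun n hn => by
      have w1 := one_le_W v (orb f P n)
      have p1 : 1 ≤ W v (orb f P n) ^ d := one_le_pow₀ w1
      have := lg (e := 1) (f := d) (one_le_W v (orb f P (n + 1))) w1 (t := Λ ^ (n + 1))
        (one_le_pow₀ Λ1) (by
          rw [pow_one]
          refine W_le _ _ (one_le_mul_of_one_le_of_one_le (one_le_pow₀ Λ1) p1) fun i => ?_
          cases i with
          | none =>
            exact (((hv.le_height _).trans (hB n)).trans (pow_le_pow_left₀ (by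
              simpa using (mulHeight₁_nonneg _).trans (hB 0)) (hΛ none (Finset.mem_univ _))
              _)).trans (le_mul_of_one_le_right (by positivity) p1)
          | some i =>
            rw [orb_succ, ← coe_aeval_eq_eval, RingHom.coe_coe, aeval_opt]
            refine (ev_le v _ _ _ w1 (fun l => le_W v _ _) fun m hm =>
              (le_totalDegree hm).trans (hf i)).trans (mul_le_mul_of_nonneg_right
              (((Finset.sum_le_sum fun m _ => ?_).trans (hA i n)).trans (pow_le_pow_left₀ (A0 i)
                (hΛ (some i) (Finset.mem_univ _)) _)) (by positivity))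
            simpa using hv.le_height _)
      have n1 : (1 : ℝ) ≤ n := by exact_mod_cast hn
      rw [Real.log_pow] at this
      push_cast at this
      rw [← mul_div_assoc, div_add' _ _ _ (by positivity)]
      refine div_le_div_of_nonneg_right ?_ (by positivity)
      nlinarith)
  exact ⟨C * (2 * Real.log Λ + 1), hC.mono fun n hn => by
    rw [mul_right_comm]; exact (div_le_iff₀ (by positivity)).1 hn⟩

theorem limits (h0 : f none = C a * X none + C b) (hd : 2 ≤ d)
    (hf : ∀ i, (optionEquivRight K ι (f (some i))).totalDegree ≤ d) (P : Option ι → K)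
    (esc : ∃ v, Pl v ∧ ∃ c : ℝ, 0 < c ∧ ∀ᶠ n : ℕ in atTop,
      c * d ^ n ≤ Real.log (W v (orb f P n))) :
    Tendsto (fun n : ℕ => ((Finset.univ.sup fun i => (itr f n i).totalDegree : ℕ) : ℝ) ^
      (1 / (n : ℝ))) atTop (𝓝 d) ∧
    Tendsto (fun n : ℕ => logHeight (fun j : Option (Option ι) => j.elim 1 (orb f P n)) ^
      (1 / (n : ℝ))) atTop (𝓝 d) := by
  obtain ⟨v, hv, c, c0, hc⟩ := esc
  have d2 : (2 : ℝ) ≤ d := by exact_mod_cast hd
  constructor
  · obtain ⟨C, hC⟩ := step_up2 h0 hd hf P hv
    have C0 : 0 < C := by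
      obtain ⟨n, p, q⟩ := (hc.and hC).exists
      exact c0.trans_le (le_of_mul_le_mul_right (p.trans q) (by positivity))
    set D : ℕ → ℕ := fun n => Finset.univ.sup fun i => (itr f n i).totalDegree
    have hD : ∀ n i, (itr f n i).totalDegree ≤ D n := fun n i =>
      Finset.le_sup (f := fun i => (itr f n i).totalDegree) (Finset.mem_univ i)
    have x1 : ∀ n, (itr f n none).totalDegree ≤ 1 := fun n => by
      induction n with
      | zero => exact (totalDegree_X _).le
      | succ n ih =>
        rw [itr, iterate_succ_apply', h0, map_add, map_mul, bind₁_X_right, bind₁_C_right,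
          bind₁_C_right]
        exact (totalDegree_add _ _).trans (max_le ((totalDegree_mul _ _).trans (by simpa using ih))
          (by simp))
    choose E hE using fun i => deg_bind (f (some i)) (hf i)
    obtain ⟨C', hC'⟩ := upper (fun n => (D n : ℝ)) d2 ((eventually_ge_atTop
      (1 + Finset.univ.sup E)).mono fun n hn => by
        have : D (n + 1) ≤ d * D n + n := Finset.sup_le fun i _ => by
          cases i with
          | none => have := x1 (n + 1); omega
          | some i =>
            have := Finset.le_sup (f := E) (Finset.mem_univ i)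
            rw [itr, iterate_succ_apply']
            exact (hE i _ _ (x1 n) (hD n)).trans (by omega)
        exact_mod_cast this)
    refine root_lim (fun n => (D n : ℝ)) (div_pos c0 C0) (by positivity)
      (Eventually.of_forall fun n => ?_) hC'
    rw [div_mul_eq_mul_div, div_le_iff₀ C0]
    by_contra z
    let T : ℝ := 1 + ∑ i, ∑ m ∈ (itr f n i).support, v ((itr f n i).coeff m)
    have s0 : ∀ i, 0 ≤ ∑ m ∈ (itr f n i).support, v ((itr f n i).coeff m) := fun i =>
      Finset.sum_nonneg fun _ _ => v.nonneg _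
    have T1 : 1 ≤ T := le_add_of_nonneg_right (Finset.sum_nonneg fun i _ => s0 i)
    obtain ⟨m, p, q, r⟩ := (((tendsto_add_atTop_nat n).eventually hc).and (hC.and
      (((tendsto_pow_atTop_atTop_of_one_lt (r := (d : ℝ)) (by linarith)).const_mul_atTop
        (sub_pos.2 (not_le.1 z))).eventually_gt_atTop (Real.log T)))).exists
    have w0 := one_le_W v (orb f P m)
    have := lg (e := 1) (f := D n) (one_le_W v (orb f P (m + n))) w0 T1 (by
      rw [pow_one]
      refine W_le _ _ (one_le_mul_of_one_le_of_one_le T1 (one_le_pow₀ w0)) fun i => ?_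
      rw [← eval_itr]
      refine (ev_le v (RingHom.id K) _ _ w0 (le_W v _) fun m hm =>
        (le_totalDegree hm).trans (hD n i)).trans (mul_le_mul_of_nonneg_right ?_ (by positivity))
      exact (Finset.single_le_sum (fun i _ => s0 i) (Finset.mem_univ i)).trans
        (le_add_of_nonneg_left zero_le_one))
    rw [pow_add] at p
    push_cast at this
    nlinarith [mul_le_mul_of_nonneg_left q (D n).cast_nonneg]
  · obtain ⟨S, hS, -⟩ := orb_gap f P
    choose A hA using fun w : InfinitePlace K => step_up2 h0 hd hf P (v := w.1) (.inl ⟨w, rfl⟩)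
    choose B hB using fun w : FinitePlace K => step_up2 h0 hd hf P (v := w.1) (.inr ⟨w, rfl⟩)
    let C : ℝ := ∑ w, |A w| + ∑ w ∈ S, |B w|
    have s1 : 0 ≤ ∑ w, |A w| := Finset.sum_nonneg fun _ _ => abs_nonneg _
    have s2 : 0 ≤ ∑ w ∈ S, |B w| := Finset.sum_nonneg fun _ _ => abs_nonneg _
    refine root_lim _ (C := (Module.finrank ℚ K + S.card : ℕ) * C) c0 (by positivity)
      (hc.mono fun n p => p.trans (Real.log_le_log (zero_lt_one.trans_le (one_le_W _ _))
        (W_le_height hv _))) ?_
    filter_upwards [eventually_all.2 hA, (eventually_all_finset S).2 fun w _ => hB w] with n p q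
    have k : ∀ (u : AbsoluteValue K ℝ) (a : ℝ), Real.log (W u (orb f P n)) ≤ a * d ^ n → |a| ≤ C →
        W u (orb f P n) ≤ Real.exp (C * d ^ n) := fun u a h l =>
      (Real.log_le_iff_le_exp (zero_lt_one.trans_le (one_le_W _ _))).1 (h.trans
        (mul_le_mul_of_nonneg_right ((le_abs_self a).trans l) (by positivity)))
    have := height_le S (orb f P n) (B := Real.exp (C * d ^ n))
      (Real.one_le_exp (mul_nonneg (add_nonneg s1 s2) (by positivity)))
      (fun w => k _ _ (p w) ((Finset.single_le_sum (f := fun w => |A w|) (fun _ _ => abs_nonneg _)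
        (Finset.mem_univ w)).trans (le_add_of_nonneg_right s2)))
      (fun w hw => k _ _ (q w hw) ((Finset.single_le_sum (f := fun w => |B w|)
        (fun _ _ => abs_nonneg _) hw).trans (le_add_of_nonneg_left s1))) fun w hw => hS w hw n
    refine (Real.log_le_log (mulHeight_pos _) this).trans_eq ?_
    rw [Real.log_pow, Real.log_exp, mul_assoc]

end Pool.Agent.MP_c8dfda_nt.SL
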